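import Mathlib

/-!
For large primes, points over the prime field lift modulo `p ^ 2` keeping finitely many
integer polynomial relations.
-/

namespace Pool.Agent.MP_8e2770_co.H89

open MvPolynomial Filter

/-- Sequences divisible by `q N` for almost all `N`. -/
def dvdIdeal (q : ℕ → ℤ) : Ideal (ℕ → ℤ) where
  carrier := {f | ∀ᶠ N in (hyperfilter ℕ : Filter ℕ), q N ∣ f N}
  add_mem' := fun ha hb => (ha.and hb).mono fun _ h => dvd_add h.1 h.2
  zero_mem' := Eventually.of_forall fun _ => dvd_zero _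
  smul_mem' := fun c _ ha => ha.mono fun N h => Dvd.dvd.mul_left h (c N)

theorem mem_dvdIdeal {q f : ℕ → ℤ} :
    f ∈ dvdIdeal q ↔ ∀ᶠ N in (hyperfilter ℕ : Filter ℕ), q N ∣ f N := Iff.rfl

theorem dvdIdeal_isMaximal (q : ℕ → ℕ) (hq : ∀ N, (q N).Prime) :
    (dvdIdeal fun N => (q N : ℤ)).IsMaximal := by
  rw [Ideal.isMaximal_iff]
  refine ⟨fun h => ?_, fun J f hJ hf hfJ => ?_⟩
  · obtain ⟨N, hN⟩ := (mem_dvdIdeal.1 h).exists
    rw [Pi.one_apply] at hN
    exact (hq N).one_lt.ne' (Nat.dvd_one.1 (by exact_mod_cast hN))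
  · have h1 : ∀ N, ∃ a b : ℤ, ¬ (q N : ℤ) ∣ f N → a * q N + b * f N = 1 := fun N => by
      by_cases h : (q N : ℤ) ∣ f N
      · exact ⟨0, 0, fun h' => absurd h h'⟩
      · obtain ⟨a, b, hab⟩ := (Nat.prime_iff_prime_int.1 (hq N)).irreducible.coprime_iff_not_dvd.2 h
        exact ⟨a, b, fun _ => hab⟩
    choose a b hab using h1
    have h2 : 1 - b * f ∈ dvdIdeal fun N => (q N : ℤ) :=
      (Ultrafilter.eventually_not.2 hf).mono fun N hN =>
        ⟨a N, by have := hab N hN; simp only [Pi.sub_apply, Pi.mul_apply, Pi.one_apply]; linarith⟩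
    have := J.add_mem (hJ h2) (J.mul_mem_left b hfJ)
    simpa using this

theorem formallySmooth_int (k : Type) [Field k] [CharZero k] : Algebra.FormallySmooth ℤ k := by
  obtain ⟨s, hs⟩ := exists_isTranscendenceBasis ℚ k
  have := hs.isAlgebraic_field
  have h1 : Algebra.FormallySmooth ℚ k := .of_algebraicIndependent_of_isSeparable hs.1
  have h2 : Algebra.FormallySmooth ℤ ℚ := .of_isLocalization (nonZeroDivisors ℤ)
  exact .comp ℤ ℚ k

theorem exists_section {k R : Type} [Field k] [CharZero k] [CommRing R] (g : R →+* k)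
    (hg : Function.Surjective g) (h2 : ∀ a b, g a = 0 → g b = 0 → a * b = 0) :
    ∃ s : k →+* R, ∀ a, g (s a) = a := by
  have hs := formallySmooth_int k
  have hnil : IsNilpotent (RingHom.ker (g.toIntAlgHom : R →+* k)) := by
    refine ⟨2, ?_⟩
    rw [pow_two, Ideal.zero_eq_bot, eq_bot_iff, Ideal.mul_le]
    exact fun a ha b hb => h2 a b ha hb
  exact ⟨Algebra.FormallySmooth.liftOfSurjective (AlgHom.id ℤ k) g.toIntAlgHom hg hnil, fun a =>
    Algebra.FormallySmooth.liftOfSurjective_apply (AlgHom.id ℤ k) g.toIntAlgHom hg hnil a⟩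

theorem lift_int {σ τ : Type} [Finite σ] [Finite τ] (f : τ → MvPolynomial σ ℤ) :
    ∃ p₀ : ℕ, ∀ p : ℕ, p.Prime → p₀ ≤ p → ∀ x : σ → ℤ, ∃ y : σ → ℤ,
      (∀ s, (p : ℤ) ∣ y s - x s) ∧ ∀ t, (p : ℤ) ∣ eval x (f t) → (p : ℤ) ^ 2 ∣ eval y (f t) := by
  by_contra hcon
  push Not at hcon
  choose q hq hqN x hx using hcon
  set J1 := dvdIdeal fun N => (q N : ℤ) with hJ1
  set J2 := dvdIdeal fun N => (q N : ℤ) ^ 2 with hJ2
  have hmax : J1.IsMaximal := dvdIdeal_isMaximal q hq
  let F : Field ((ℕ → ℤ) ⧸ J1) := Ideal.Quotient.field J1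
  have hc : CharZero ((ℕ → ℤ) ⧸ J1) := by
    refine charZero_of_inj_zero fun m hm => ?_
    by_contra h0
    rw [← map_natCast (Ideal.Quotient.mk J1), Ideal.Quotient.eq_zero_iff_mem] at hm
    have h1 : ∀ᶠ N in (hyperfilter ℕ : Filter ℕ), m < N :=
      Nat.hyperfilter_le_atTop (eventually_gt_atTop m)
    obtain ⟨N, h2, h3⟩ := ((mem_dvdIdeal.1 hm).and h1).exists
    rw [Pi.natCast_apply] at h2
    have h4 : q N ∣ m := by exact_mod_cast h2
    have := Nat.le_of_dvd (Nat.pos_of_ne_zero h0) h4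
    have := hqN N
    omega
  have hle : J2 ≤ J1 := fun g hg =>
    (mem_dvdIdeal.1 hg).mono fun N h => (dvd_pow_self _ two_ne_zero).trans h
  set g : ((ℕ → ℤ) ⧸ J2) →+* ((ℕ → ℤ) ⧸ J1) := Ideal.Quotient.factor hle with hg
  have hgmk : ∀ a, g (Ideal.Quotient.mk J2 a) = Ideal.Quotient.mk J1 a := fun a => rfl
  have hgs : Function.Surjective g := fun b => by
    obtain ⟨a, rfl⟩ := Ideal.Quotient.mk_surjective b
    exact ⟨_, hgmk a⟩
  obtain ⟨s, hsg⟩ := exists_section g hgs fun a b ha hb => by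
    obtain ⟨a, rfl⟩ := Ideal.Quotient.mk_surjective a
    obtain ⟨b, rfl⟩ := Ideal.Quotient.mk_surjective b
    have ha' : a ∈ J1 := Ideal.Quotient.eq_zero_iff_mem.1 ha
    have hb' : b ∈ J1 := Ideal.Quotient.eq_zero_iff_mem.1 hb
    rw [← map_mul, Ideal.Quotient.eq_zero_iff_mem]
    exact ((mem_dvdIdeal.1 ha').and (mem_dvdIdeal.1 hb')).mono fun N h => by
      simpa only [pow_two, Pi.mul_apply] using mul_dvd_mul h.1 h.2
  choose y hy using fun i : σ =>
    Ideal.Quotient.mk_surjective (s (Ideal.Quotient.mk J1 fun N => x N i))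
  have hev : ∀ (z : σ → ℕ → ℤ) (F : MvPolynomial σ ℤ) (N : ℕ),
      aeval z F N = eval (fun i => z i N) F := fun z F N => by
    have := comp_aeval_apply (f := z) (Pi.evalAlgHom ℤ (fun _ : ℕ => ℤ) N) F
    simpa using this
  have h1 : ∀ i, ∀ᶠ N in (hyperfilter ℕ : Filter ℕ), (q N : ℤ) ∣ y i N - x N i := fun i => by
    have : Ideal.Quotient.mk J1 (y i) = Ideal.Quotient.mk J1 fun N => x N i := by
      rw [← hgmk, hy, hsg]
    exact mem_dvdIdeal.1 (Ideal.Quotient.eq.1 this)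
  have h2 : ∀ t, ∀ᶠ N in (hyperfilter ℕ : Filter ℕ), (q N : ℤ) ∣ eval (x N) (f t) →
      (q N : ℤ) ^ 2 ∣ eval (fun i => y i N) (f t) := fun t => by
    by_cases h : ∀ᶠ N in (hyperfilter ℕ : Filter ℕ), (q N : ℤ) ∣ eval (x N) (f t)
    · have a1 : Ideal.Quotient.mk J1 (aeval (fun i N => x N i) (f t)) = 0 :=
        Ideal.Quotient.eq_zero_iff_mem.2 (h.mono fun N hN => by rwa [hev])
      have a2 : Ideal.Quotient.mk J2 (aeval y (f t)) =
          s (Ideal.Quotient.mk J1 (aeval (fun i N => x N i) (f t))) := by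
        have : (Ideal.Quotient.mk J2).comp (aeval (R := ℤ) y : MvPolynomial σ ℤ →+* ℕ → ℤ) =
            (s.comp (Ideal.Quotient.mk J1)).comp
              (aeval (R := ℤ) (fun i N => x N i) : MvPolynomial σ ℤ →+* ℕ → ℤ) := by
          refine MvPolynomial.ringHom_ext' (RingHom.ext_int _ _) fun i => ?_
          simpa using hy i
        exact congrArg (fun φ => φ (f t)) this
      rw [a1, map_zero, Ideal.Quotient.eq_zero_iff_mem] at a2
      exact (mem_dvdIdeal.1 a2).mono fun N hN _ => by rwa [hev] at hN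
    · exact (Ultrafilter.eventually_not.2 h).mono fun N hN h' => absurd h' hN
  obtain ⟨N, a1, a2⟩ := ((eventually_all.2 h1).and (eventually_all.2 h2)).exists
  obtain ⟨t, b1, b2⟩ := hx N (fun i => y i N) a1
  exact b2 (a2 t b1)

/-- The matrix lifts modulo `p ^ 2` keeping every linear dependency among the unit vectors and
the rows. -/
def Liftable {n : ℕ} (p : ℕ) (A : Matrix (Fin n) (Fin n) (ZMod p)) : Prop :=
  ∃ B : Matrix (Fin n) (Fin n) (ZMod (p ^ 2)),
    B.map (ZMod.castHom (dvd_pow_self p two_ne_zero) (ZMod p)) = A ∧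
    ∀ (S : Set (Fin n ⊕ Fin n)) (e : Fin n ⊕ Fin n),
      (Sum.elim (fun i => Pi.single i 1) (fun j => A j) e : Fin n → ZMod p) ∈
        Submodule.span (ZMod p) (Sum.elim (fun i => Pi.single i 1) (fun j => A j) '' S) →
      (Sum.elim (fun i => Pi.single i 1) (fun j => B j) e : Fin n → ZMod (p ^ 2)) ∈
        Submodule.span (ZMod (p ^ 2)) (Sum.elim (fun i => Pi.single i 1) (fun j => B j) '' S)

theorem lift_exists (n : ℕ) : ∃ p₀ : ℕ, ∀ p : ℕ, p.Prime → p₀ ≤ p →
    ∀ A : Matrix (Fin n) (Fin n) (ZMod p), Liftable p A := by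
  classical
  let E := Fin n ⊕ Fin n
  let σ := (Fin n × Fin n) ⊕ (Finset E × E × E)
  let H : E → Fin n → MvPolynomial σ ℤ :=
    Sum.elim (fun i => Pi.single i 1) fun j i => X (Sum.inl (j, i))
  obtain ⟨p₀, hp₀⟩ := lift_int (σ := σ) (τ := Finset E × E × Fin n)
    fun t => H t.2.1 t.2.2 - ∑ b ∈ t.1, X (Sum.inr (t.1, t.2.1, b)) * H b t.2.2
  refine ⟨p₀, fun p hp hpp A => ?_⟩
  set a : E → Fin n → ZMod p := Sum.elim (fun i => Pi.single i 1) fun j => A j with ha
  have ex : ∀ (S : Finset E) (e : E), ∃ l : E → ZMod p,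
      a e ∈ Submodule.span (ZMod p) (a '' S) → ∑ b ∈ S, l b • a b = a e := fun S e => by
    by_cases h : a e ∈ Submodule.span (ZMod p) (a '' S)
    · obtain ⟨l, hl⟩ := (Submodule.mem_span_image_finset_iff_exists_fun' (ZMod p)).1 h
      exact ⟨l, fun _ => hl⟩
    · exact ⟨0, fun h' => absurd h' h⟩
  choose l hl using ex
  choose x hx using fun s : σ => ZMod.intCast_surjective (n := p)
    (Sum.elim (fun q : Fin n × Fin n => A q.1 q.2) (fun q => l q.1 q.2.1 q.2.2) s)
  obtain ⟨y, hy1, hy2⟩ := hp₀ p hp hpp x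
  have hH : ∀ (m : ℕ) (z : σ → ℤ) (e : E) (i : Fin n), ((eval z (H e i) : ℤ) : ZMod m) =
      (Sum.elim (fun i => Pi.single i 1) (fun j i => (z (Sum.inl (j, i)) : ZMod m)) e :
        Fin n → ZMod m) i := fun m z e i => by
    rcases e with e | e
    · simp only [H, Sum.elim_inl, Pi.single_apply]
      split_ifs <;> simp
    · simp [H]
  refine ⟨fun j i => (y (Sum.inl (j, i)) : ZMod (p ^ 2)), ?_, fun S e he => ?_⟩
  · ext j i
    have h1 := hx (Sum.inl (j, i))
    have h2 := (ZMod.intCast_zmod_eq_zero_iff_dvd _ p).2 (hy1 (Sum.inl (j, i)))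
    rw [Int.cast_sub, sub_eq_zero, h1] at h2
    exact (map_intCast (ZMod.castHom (dvd_pow_self p two_ne_zero) (ZMod p)) _).trans h2
  · lift S to Finset E using S.toFinite
    refine (Submodule.mem_span_image_finset_iff_exists_fun' _).2
      ⟨fun b => (y (Sum.inr (S, e, b)) : ZMod (p ^ 2)), funext fun i => ?_⟩
    have hxa : (Sum.elim (fun i => Pi.single i 1) fun j i => (x (Sum.inl (j, i)) : ZMod p)) = a := by
      funext e; rcases e with e | e
      · rfl
      · funext i; exact hx (Sum.inl (e, i))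
    have h1 := hy2 (S, e, i) (by
      rw [← ZMod.intCast_zmod_eq_zero_iff_dvd]
      have hx' : ∀ b, (x (Sum.inr (S, e, b)) : ZMod p) = l S e b := fun b => hx _
      simp only [map_sub, map_sum, map_mul, eval_X, Int.cast_sub, Int.cast_sum, Int.cast_mul, hH,
        hxa, hx']
      rw [← hl S e he]
      simp)
    rw [← Nat.cast_pow, ← ZMod.intCast_zmod_eq_zero_iff_dvd] at h1
    simp only [map_sub, map_sum, map_mul, eval_X, Int.cast_sub, Int.cast_sum, Int.cast_mul,
      hH] at h1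
    rw [Finset.sum_apply]
    exact (sub_eq_zero.1 h1).symm

end Pool.Agent.MP_8e2770_co.H89
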