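import Pool.Agent.MP_8e2770_co.H89.Psi
import Pool.Agent.MP_8e2770_co.H89.Lift
import Pool.Agent.MP_8e2770_co.H72.Adapted

/-!
The chain map built from a lifting modulo `p ^ 2` of the arrangement.
-/

namespace Pool.Agent.MP_8e2770_co.H89

open MvPolynomial H72

noncomputable section

lemma witt {R ι : Type} [CommRing R] {p : ℕ} (hp : p.Prime) (I : Ideal R) (μ y : ι → R)
    (hμ : ∀ b, (p : R) ∣ μ b ^ p - μ b) (s : Finset ι) (hy : ∀ b ∈ s, y b ∈ I) :
    ∃ Γ ∈ I ^ p, (∑ b ∈ s, μ b * y b) ^ p = ∑ b ∈ s, μ b * y b ^ p + p * Γ := by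
  classical
  induction s using Finset.induction_on with
  | empty => exact ⟨0, zero_mem _, by simp [hp.ne_zero]⟩
  | insert a s ha ih =>
    obtain ⟨Γ, h1, h2⟩ := ih fun b hb => hy b (Finset.mem_insert_of_mem hb)
    obtain ⟨c, hc⟩ := hμ a
    have ha1 : y a ∈ I := hy a (Finset.mem_insert_self _ _)
    have ha2 : μ a * y a ∈ I := I.mul_mem_left _ ha1
    have ha3 : ∑ b ∈ s, μ b * y b ∈ I :=
      sum_mem fun b hb => I.mul_mem_left _ (hy b (Finset.mem_insert_of_mem hb))
    refine ⟨Γ + c * y a ^ p + (μ a * y a) * (∑ b ∈ s, μ b * y b) * ∑ k ∈ Finset.Ioo 0 p,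
      (μ a * y a) ^ (k - 1) * (∑ b ∈ s, μ b * y b) ^ (p - k - 1) * (p.choose k / p : ℕ),
      add_mem (add_mem h1 (Ideal.mul_mem_left _ _ (Ideal.pow_mem_pow ha1 p))) ?_, ?_⟩
    · rw [Finset.mul_sum]
      refine sum_mem fun k hk => ?_
      have hk' := Finset.mem_Ioo.1 hk
      have := Ideal.mul_mem_mul (Ideal.mul_mem_mul ha2 ha3)
        (Ideal.mul_mem_mul (Ideal.pow_mem_pow ha2 (k - 1)) (Ideal.pow_mem_pow ha3 (p - k - 1)))
      rw [← pow_two, ← pow_add, ← pow_add, show 2 + (k - 1 + (p - k - 1)) = p by omega] at this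
      rw [← mul_assoc]
      exact Ideal.mul_mem_right _ _ this
    · rw [Finset.sum_insert ha, Finset.sum_insert ha, add_pow_prime_eq hp, h2, mul_pow,
        sub_eq_iff_eq_add.1 hc]
      ring

section rel

variable {R : Type} [CommRing R] {n : ℕ} (B : Matrix (Fin n) (Fin n) R)

/-- The unit vectors and the rows. -/
def ar : Fin n ⊕ Fin n → Fin n → R := Sum.elim (fun i => Pi.single i 1) fun j => B j

/-- The basic relations among the unit vectors and the rows. -/
def kap (j : Fin n) : Fin n ⊕ Fin n → R := Sum.elim (-B j) (Pi.single j 1)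

/-- The corresponding linear forms. -/
def lf (e : Fin n ⊕ Fin n) : MvPolynomial (Fin n) R := ∑ i, C (ar B e i) * X i

lemma kap_rel (j : Fin n) : ∑ e, kap B j e • ar B e = 0 := by
  ext i
  simp [kap, ar, Pi.single_apply]

lemma rel_eq {w : Fin n ⊕ Fin n → R} (hw : ∑ e, w e • ar B e = 0) :
    w = ∑ j, w (Sum.inr j) • kap B j := by
  ext e
  rcases e with i | j
  · have := congrFun hw i
    simp only [ar, Fintype.sum_sum_type, Sum.elim_inl, Sum.elim_inr, Finset.sum_apply,
      Pi.smul_apply, Pi.single_apply, smul_eq_mul, mul_ite, mul_one, mul_zero, Finset.sum_ite_eq,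
      Finset.mem_univ, if_true, Pi.zero_apply] at this
    simp [kap, eq_neg_of_add_eq_zero_left this]
  · simp [kap, Pi.single_apply]

lemma map_ar {S : Type} [CommRing S] (f : R →+* S) (e : Fin n ⊕ Fin n) (i : Fin n) :
    ar (B.map f) e i = f (ar B e i) := by
  rcases e with e | e
  · simp only [ar, Sum.elim_inl, Pi.single_apply]
    split_ifs <;> simp
  · rfl

lemma map_kap {S : Type} [CommRing S] (f : R →+* S) (j : Fin n) (e : Fin n ⊕ Fin n) :
    kap (B.map f) j e = f (kap B j e) := by
  rcases e with e | e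
  · simp [kap]
  · simp only [kap, Sum.elim_inr, Pi.single_apply]
    split_ifs <;> simp

lemma map_lf {K : Type} [Field K] (f : R →+* K) (e : Fin n ⊕ Fin n) :
    map f (lf B e) = lin (arr (B.map f) e) := by
  simp only [lf, map_sum, map_mul, map_C, map_X, lin_apply, smul_eq_C_mul, ← map_ar B f]
  rfl

lemma sum_cir {E V : Type} [Fintype E] [DecidableEq E] [AddCommGroup V] [Module R V] (v : E → V)
    (e : E) (T : Finset E) (μ : E → R) :
    ∑ f, (Pi.single e 1 - ∑ b ∈ T, μ b • Pi.single b (1 : R) : E → R) f • v f =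
      v e - ∑ b ∈ T, μ b • v b := by
  rw [← Fintype.linearCombination_apply R v (Pi.single e 1 - ∑ b ∈ T, μ b • Pi.single b (1 : R)),
    map_sub, map_sum]
  simp

end rel

variable {p n : ℕ} [Fact p.Prime]

lemma dvd_of_cast_eq_zero {c : ZMod (p ^ 2)}
    (h : ZMod.castHom (dvd_pow_self p two_ne_zero) (ZMod p) c = 0) : (p : ZMod (p ^ 2)) ∣ c := by
  obtain ⟨z, rfl⟩ := ZMod.intCast_surjective c
  rw [map_intCast, ZMod.intCast_zmod_eq_zero_iff_dvd] at h
  simpa using map_dvd (Int.castRingHom (ZMod (p ^ 2))) h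

lemma map_eq_zero_of_mul {K : Type} [Field K] [CharP K p] (ρ : ZMod (p ^ 2) →+* K)
    {g : MvPolynomial (Fin n) (ZMod (p ^ 2))} (h : (p : MvPolynomial (Fin n) (ZMod (p ^ 2))) * g = 0) :
    map ρ g = 0 := by
  ext m
  have h1 := congrArg (coeff m) h
  rw [← map_natCast C, coeff_C_mul, coeff_zero] at h1
  obtain ⟨z, hz⟩ := ZMod.intCast_surjective (coeff m g)
  rw [← hz, ← Int.cast_natCast, ← Int.cast_mul, ZMod.intCast_zmod_eq_zero_iff_dvd, Nat.cast_pow,
    pow_two, mul_dvd_mul_iff_left (by exact_mod_cast (Fact.out : p.Prime).ne_zero)] at h1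
  rw [coeff_map, ← hz, map_intCast, coeff_zero, CharP.intCast_eq_zero_iff K p]
  exact h1

variable (B : Matrix (Fin n) (Fin n) (ZMod (p ^ 2)))

lemma witt_rel {w : Fin n ⊕ Fin n → ZMod (p ^ 2)} (hw : ∑ e, w e • ar B e = 0)
    (T : Finset (Fin n ⊕ Fin n)) (hT : ∀ e, w e ≠ 0 → e ∈ T) :
    ∃ Γ ∈ Ideal.span (lf B '' T) ^ p, ∑ e, C (w e) * lf B e ^ p = p * Γ := by
  have hp : p.Prime := Fact.out
  obtain ⟨Γ, h1, h2⟩ := witt hp (Ideal.span (lf B '' T)) (fun e => C (w e)) (lf B) (fun e => by
    rw [← map_pow, ← map_sub, ← map_natCast C]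
    exact map_dvd _ (dvd_of_cast_eq_zero (by rw [map_sub, map_pow, ZMod.pow_card, sub_self]))) T
    fun b hb => Ideal.subset_span ⟨b, hb, rfl⟩
  have h3 : ∀ f : Fin n ⊕ Fin n → MvPolynomial (Fin n) (ZMod (p ^ 2)),
      ∑ e ∈ T, C (w e) * f e = ∑ e, C (w e) * f e := fun f =>
    Finset.sum_subset (Finset.subset_univ _) fun e _ he => by
      rw [not_not.1 (mt (hT e) he), map_zero, zero_mul]
  have h4 : ∑ e, C (w e) * lf B e = 0 := by
    simp only [lf, Finset.mul_sum, ← mul_assoc, ← map_mul]
    rw [Finset.sum_comm]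
    refine Finset.sum_eq_zero fun i _ => ?_
    rw [← Finset.sum_mul, ← map_sum, show ∑ e, w e * ar B e i = 0 by simpa using congrFun hw i]
    simp
  rw [h3, h3, h4, zero_pow hp.ne_zero] at h2
  exact ⟨-Γ, neg_mem h1, by linear_combination -h2⟩

lemma df_witt {K : Type} [Field K] [CharP K p] (ρ : ZMod (p ^ 2) →+* K)
    {w : Fin n ⊕ Fin n → ZMod (p ^ 2)} {Γ : MvPolynomial (Fin n) (ZMod (p ^ 2))}
    (h : ∑ e, C (w e) * lf B e ^ p = (p : MvPolynomial (Fin n) (ZMod (p ^ 2))) * Γ) :
    df (pol (map ρ Γ)) = th (arr (B.map ρ)) p fun e => ρ (w e) := by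
  have h1 : ∀ i, map ρ (pderiv i Γ) =
      ∑ e, ρ (w e) • arr (B.map ρ) e i • lin (arr (B.map ρ) e) ^ (p - 1) := fun i => by
    have h2 : ∀ e, pderiv i (lf B e) = C (ar B e i) := fun e => by
      simp [lf, Pi.single_apply]
    have h3 := congrArg (pderiv i) h
    rw [← map_natCast C, pderiv_C_mul, map_natCast, map_sum] at h3
    simp only [pderiv_C_mul, Derivation.leibniz_pow, h2] at h3
    have h4 := map_eq_zero_of_mul ρ
      (g := pderiv i Γ - ∑ e, C (w e) * (C (ar B e i) * lf B e ^ (p - 1))) (by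
        rw [mul_sub, ← h3, Finset.mul_sum, ← Finset.sum_sub_distrib]
        exact Finset.sum_eq_zero fun e _ => by simp only [nsmul_eq_mul, smul_eq_mul]; ring)
    rw [map_sub, sub_eq_zero] at h4
    simp only [h4, map_sum, map_mul, map_C, map_pow, map_lf, smul_eq_C_mul, ← map_ar B ρ]
    rfl
  simp only [df, D_pol, pderiv_map, h1, th_apply, map_sum, map_smul, Finset.sum_smul, map_pow]
  rw [Finset.sum_comm]
  refine Finset.sum_congr rfl fun e _ => ?_
  conv_rhs => rw [pi_eq_sum_univ' (arr (B.map ρ) e), map_sum dv, ← pi_eq_sum_univ']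
  simp only [Finset.smul_sum, map_smul, smul_assoc, H72.L_apply]
  exact Finset.sum_congr rfl fun i _ => by rw [smul_comm (arr (B.map ρ) e i)]

lemma card_le_inter {F V E ι : Type} [Field F] [AddCommGroup V] [Module F V] [DecidableEq E]
    (a : E → V) (g : ι → E) (hg : LinearIndependent F fun i => a (g i)) (T : Finset ι)
    (U : Finset E) (h : ∀ i ∈ T, a (g i) ∈ Submodule.span F (a '' U)) : T.card ≤ U.card := by
  classical
  have := linearIndependent_le_span_aux' _ (hg.comp ((↑) : T → ι) Subtype.val_injective)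
    (U.image a : Set V) (by rintro _ ⟨i, rfl⟩; simpa using h i i.2)
  simp only [Fintype.card_coe, Finset.coe_sort_coe] at this
  exact this.trans Finset.card_image_le

theorem di_vol {K : Type} [Field K] [Algebra (ZMod p) K] (A : Matrix (Fin n) (Fin n) (ZMod p))
    (hA : A.det ≠ 0) (hn : n < p) (hl : Liftable p A)
    (t : K) (ht : Function.Injective fun m : ℤ => t ^ m) (a : ℕ) (ha : a ≤ p) :
    ∃ g ∈ Gs (arr (A.map (algebraMap (ZMod p) K))) Finset.univ, ∃ η,
      vol (A.map (algebraMap (ZMod p) K)) =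
        mono (arr (A.map (algebraMap (ZMod p) K))) (wt n a) • g + d η := by
  have hp : p.Prime := Fact.out
  have hK : CharP K p := charP_of_injective_algebraMap (algebraMap (ZMod p) K).injective p
  obtain ⟨B, hB, hl⟩ := hl
  change ∀ S e, ar A e ∈ Submodule.span _ (ar A '' S) → ar B e ∈ Submodule.span _ (ar B '' S) at hl
  set π := ZMod.castHom (dvd_pow_self p two_ne_zero) (ZMod p) with hπ
  set ι := algebraMap (ZMod p) K with hι
  have hρ : B.map (ι.comp π) = A.map ι := by rw [← hB]; rfl
  choose G _ hG using fun j => witt_rel B (kap_rel B j) Finset.univ (by simp)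
  have hrow : LinearIndependent (ZMod p) fun j => ar A (Sum.inr j) :=
    Matrix.linearIndependent_rows_of_det_ne_zero hA
  have hcol : LinearIndependent (ZMod p) fun j => ar A (Sum.inl j) :=
    Pi.linearIndependent_single_one _ _
  have hh : ∀ e, arr (A.map ι) e ≠ 0 := fun e h0 => by
    have : ar A e = 0 := _root_.funext fun i =>
      ι.injective ((map_ar A ι e i).symm.trans ((congrFun h0 i).trans (map_zero ι).symm))
    rcases e with e | e
    exacts [hcol.ne_zero e this, hrow.ne_zero e this]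
  have main := kos_main (h := arr (A.map ι)) p (fun j => map (ι.comp π) (G j)) hh t ht
    (Fintype.linearCombination K (kap (A.map ι))) (fun v => by
      have hd : ∀ f : FF K n, df f = d (f • 1) := fun f => by simp [d_smul, d_one]
      rw [lam, Fintype.linearCombination_apply, Fintype.linearCombination_apply, hd,
        Finset.sum_smul, map_sum, map_sum]
      refine Finset.sum_congr rfl fun j _ => ?_
      rw [smul_assoc, d.map_smul (v j), ← hd, map_smul, df_witt B _ (hG j), ← hρ]
      simp only [← map_kap])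
    (wt n a) (Sum.elim (fun _ => -1) fun _ => 0) (fun S => max S.toLeft.card S.toRight.card)
    (fun S => by
      simp only [Finset.sum_sum_eq_sum_toLeft_add_sum_toRight, wt, Sum.elim_inl, Sum.elim_inr,
        Finset.sum_const, nsmul_eq_mul]
      have : (a : ℤ) ≤ p := by exact_mod_cast ha
      have : (0 : ℤ) ≤ a := by positivity
      rcases le_total (S.toLeft.card : ℤ) S.toRight.card with h | h
      · rw [max_eq_right h]; nlinarith
      · rw [max_eq_left h]; nlinarith)
    (List.ofFn Sum.inl) (by simpa using hn) ?_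
  · convert main using 6
    rw [vol, List.map_ofFn]
    simp only [Function.comp_def, th_single, om, prod_ofFn_smul, smul_smul, mono,
      Fintype.prod_sum_type, Sum.elim_inl, Sum.elim_inr, zpow_zero, Finset.prod_const_one, mul_one,
      ← Finset.prod_pow, ← Finset.prod_mul_distrib]
    congr 2
    funext i
    have := L_ne_zero (hh (Sum.inl i))
    rw [← pow_sub_one_mul hp.ne_zero, zpow_neg_one, inv_pow]
    field_simp
  intro c hc
  obtain ⟨B₀, l, h1, h2, h3, h4⟩ := exists_adapted_coeff (K := ZMod p) (ar A) c hc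
  have hind : ∀ μ : Fin n ⊕ Fin n → ZMod p, ∑ b ∈ B₀, μ b • ar A b = 0 → ∀ b ∈ B₀, μ b = 0 :=
    linearIndepOn_finset_iff.1 h1
  let cir : Fin n ⊕ Fin n → Fin n ⊕ Fin n → ZMod p := fun e =>
    Pi.single e 1 - ∑ b ∈ B₀, l e b • Pi.single b 1
  have hcir : ∀ e, Fintype.linearCombination K (kap (A.map ι)) (fun j => ι (cir e (Sum.inr j))) =
      fun f => ι (cir e f) := fun e => by
    conv_rhs => rw [rel_eq A (w := cir e) (by rw [sum_cir, ← h2, sub_self])]
    ext f
    simp [Fintype.linearCombination_apply, map_kap]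
  refine ⟨Fintype.linearCombination K fun e j => ι (cir e (Sum.inr j)), B₀, fun e => ?_, fun v => ?_,
    fun b hb => ?_, fun e => ⟨fun b => ι (l e b), ?_⟩, ?_, fun S hS => ?_⟩
  · rw [Fintype.linearCombination_apply_single, one_smul, hcir]
    set T := B₀.filter fun b => l e b ≠ 0 with hT
    have hTs : ∀ {V : Type} [AddCommGroup V] [Module (ZMod p) V] (v : Fin n ⊕ Fin n → V),
        ∑ b ∈ T, l e b • v b = ∑ b ∈ B₀, l e b • v b := fun v =>
      Finset.sum_filter_of_ne fun b _ h0 h => h0 (by rw [h, zero_smul])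
    obtain ⟨μ, hμ⟩ := (Submodule.mem_span_image_finset_iff_exists_fun' _).1 (hl T e
      ((Submodule.mem_span_image_finset_iff_exists_fun' _).2 ⟨l e, by rw [hTs, ← h2]⟩))
    have hμ' : ∀ b ∈ T, π (μ b) = l e b := fun b hb => by
      have := hind (fun b => if b ∈ T then π (μ b) - l e b else 0) (by
        simp only [ite_smul, zero_smul]
        rw [Finset.sum_ite_mem, Finset.inter_eq_right.2 (Finset.filter_subset _ _)]
        simp only [sub_smul, Finset.sum_sub_distrib]
        rw [hTs, ← h2, sub_eq_zero, ← hB]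
        ext i
        simp only [map_ar, ← hμ, Finset.sum_apply, Pi.smul_apply,  smul_eq_mul, map_sum, map_mul]
        rfl) b (Finset.filter_subset _ _ hb)
      rwa [if_pos hb, sub_eq_zero] at this
    set w : Fin n ⊕ Fin n → ZMod (p ^ 2) := Pi.single e 1 - ∑ b ∈ T, μ b • Pi.single b 1 with hw
    have hw0 : ∑ f, w f • ar B f = 0 := by rw [sum_cir, hμ, sub_self]
    have hw1 : ∀ f, w f ≠ 0 → f ∈ insert e T := fun f hf => by_contra fun h0 => hf (by
      rw [Finset.mem_insert, not_or] at h0
      rw [hw, Pi.sub_apply, Finset.sum_apply, Pi.single_eq_of_ne h0.1, zero_sub, neg_eq_zero]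
      exact Finset.sum_eq_zero fun b hb => by
        rw [Pi.smul_apply, Pi.single_eq_of_ne (ne_of_mem_of_not_mem hb h0.2).symm, smul_zero])
    have hw2 : ∀ f, π (w f) = cir e f := fun f => by
      simp only [cir]
      rw [← hTs]
      simp only [hw, Pi.sub_apply, Finset.sum_apply, Pi.smul_apply, map_sub, map_sum,
        Pi.single_apply, smul_eq_mul, map_mul, apply_ite π, map_one, map_zero]
      exact congrArg _ (Finset.sum_congr rfl fun b hb => by rw [hμ' b hb])
    refine ⟨insert e T, ⟨fun f hf => hw1 f fun h0 => hf (by simp only [← hw2, h0, map_zero]),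
      ?_⟩, fun S hS he => Finset.insert_subset he fun b hb =>
        h3 e b (Finset.mem_filter.1 hb).1 (Finset.mem_filter.1 hb).2 S hS he⟩
    obtain ⟨Γ, a1, a2⟩ := witt_rel B hw0 _ hw1
    have a3 := map_eq_zero_of_mul (ι.comp π) (g := ∑ j, C (w (Sum.inr j)) * G j - Γ) (by
      rw [mul_sub, ← a2, Finset.mul_sum, sub_eq_zero]
      conv_rhs => rw [rel_eq B hw0]
      simp only [mul_left_comm (p : MvPolynomial (Fin n) (ZMod (p ^ 2))), ← hG, Finset.mul_sum,
        Finset.sum_apply, Pi.smul_apply, smul_eq_mul, map_sum, map_mul, Finset.sum_mul, mul_assoc]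
      exact Finset.sum_comm)
    have a4 : lam (fun j => map (ι.comp π) (G j)) (fun j => ι (cir e (Sum.inr j))) =
        pol (map (ι.comp π) Γ) := by
      rw [map_sub, sub_eq_zero] at a3
      simp only [← a3, lam, Fintype.linearCombination_apply, ← hw2, map_sum, map_mul, map_C]
      simp only [← map_smul pol, smul_eq_C_mul, map_mul, RingHom.comp_apply]
    rw [a4]
    refine raises_of_mem hh _ p _ ?_
    have := Ideal.mem_map_of_mem (map (ι.comp π)) a1
    rw [Ideal.map_pow, Ideal.map_span, Set.image_image] at this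
    simpa only [map_lf, hρ] using this
  · have : ∀ j j', ∑ e, kap A j e * cir e (Sum.inr j') = kap A j (Sum.inr j') := fun j j' => by
      have a1 := hind (fun b => ∑ e, kap A j e * l e b) (by
        rw [← kap_rel A j]
        simp only [Finset.sum_smul, mul_smul]
        rw [Finset.sum_comm]
        exact Finset.sum_congr rfl fun e _ => by rw [← Finset.smul_sum, ← h2])
      simp only [cir, Pi.sub_apply, Finset.sum_apply, Pi.smul_apply, mul_sub, smul_eq_mul,
        Finset.sum_sub_distrib, Finset.mul_sum, ← mul_assoc]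
      rw [Finset.sum_comm, Finset.sum_eq_zero (s := B₀) fun b hb => by
        rw [← Finset.sum_mul, a1 b hb, zero_mul]]
      simp [Pi.single_apply]
    rw [Fintype.linearCombination_apply K (kap _), map_sum]
    conv_rhs => rw [pi_eq_sum_univ' v]
    refine Finset.sum_congr rfl fun j _ => ?_
    rw [map_smul, Fintype.linearCombination_apply]
    congr 1
    ext j'
    simp only [Finset.sum_apply, Pi.smul_apply, smul_eq_mul, map_kap, ← map_mul, ← map_sum, this]
    rw [← map_kap]
    rfl
  · rw [Fintype.linearCombination_apply_single, one_smul]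
    have : cir b = 0 := by
      simp only [cir]
      rw [Finset.sum_eq_single b (fun f hf hfb => by rw [h4 b hb f hf, if_neg hfb.symm, zero_smul])
        (fun h => absurd hb h), h4 b hb b hb]
      simp
    ext j
    simp [this]
  · rw [Fintype.linearCombination_apply_single, one_smul, hcir]
    ext f
    simp [cir, Pi.single_apply, apply_ite ι]
  · simpa using h1.fintype_card_le_finrank
  · have : ∀ e ∈ S, ar A e ∈ Submodule.span (ZMod p) (ar A '' (B₀ ∩ S : Finset _)) := fun e he => by
      rw [h2 e]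
      refine sum_mem fun b hb => ?_
      by_cases h0 : l e b = 0
      · simp [h0]
      · exact Submodule.smul_mem _ _ (Submodule.subset_span
          ⟨b, by simpa using ⟨hb, h3 e b hb h0 S hS he⟩, rfl⟩)
    exact_mod_cast max_le (card_le_inter _ _ hcol _ _ fun i hi => this _ (Finset.mem_toLeft.1 hi))
      (card_le_inter _ _ hrow _ _ fun i hi => this _ (Finset.mem_toRight.1 hi))

end

end Pool.Agent.MP_8e2770_co.H89
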