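import Mathlib

/-!
A Koszul complex with filtrations indexed by families of subsets, and a filtered homotopy.
-/

namespace Pool.Agent.MP_8e2770_co.H89

open MvPolynomial TensorProduct

noncomputable section

/-- The Koszul algebra. -/
abbrev Kos (K J E : Type) [Field K] := MvPolynomial J K ⊗[K] ExteriorAlgebra K (E → K)

variable {K J E : Type} [Field K] [Fintype J] [Fintype E] [DecidableEq J] [DecidableEq E]

/-- Even generators. -/
def nu : (J → K) →ₗ[K] Kos K J E :=
  (Algebra.TensorProduct.includeLeft (S := K)).toLinearMap ∘ₗ Fintype.linearCombination K X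

/-- Odd generators. -/
def ee : (E → K) →ₗ[K] Kos K J E :=
  Algebra.TensorProduct.includeRight.toLinearMap ∘ₗ ExteriorAlgebra.ι K

omit [Fintype E] [DecidableEq J] [DecidableEq E] in
lemma nu_mul_tmul (v : J → K) (f : MvPolynomial J K) (w : ExteriorAlgebra K (E → K)) :
    nu v * f ⊗ₜ[K] w = (Fintype.linearCombination K X v * f) ⊗ₜ[K] w := by
  simp [nu]

omit [Fintype J] [Fintype E] [DecidableEq J] [DecidableEq E] in
lemma ee_mul_tmul (u : E → K) (f : MvPolynomial J K) (w : ExteriorAlgebra K (E → K)) :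
    ee u * f ⊗ₜ[K] w = f ⊗ₜ[K] (ExteriorAlgebra.ι K u * w) := by
  simp [ee]

omit [Fintype J] [Fintype E] [DecidableEq J] [DecidableEq E] in
lemma ee_mul_self (u : E → K) (x : Kos K J E) : ee u * (ee u * x) = 0 := by
  rw [← mul_assoc]
  simp [ee]

omit [Fintype J] [Fintype E] [DecidableEq J] [DecidableEq E] in
lemma ee_anticomm (u u' : E → K) (x : Kos K J E) : ee u * (ee u' * x) = -(ee u' * (ee u * x)) := by
  have := ee_mul_self (u + u') x
  rw [map_add, add_mul, add_mul, mul_add, mul_add, ee_mul_self, ee_mul_self, zero_add,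
    add_zero] at this
  exact eq_neg_of_add_eq_zero_left this

omit [Fintype E] [DecidableEq J] [DecidableEq E] in
lemma ee_nu_comm (u : E → K) (v : J → K) (x : Kos K J E) :
    ee u * (nu v * x) = nu v * (ee u * x) := by
  rw [← mul_assoc, ← mul_assoc]
  simp [ee, nu]

omit [Fintype E] [DecidableEq E] in
lemma kos_induction {P : Kos K J E → Prop} (x : Kos K J E) (one : ∀ r : K, P (r • 1))
    (add : ∀ a b, P a → P b → P (a + b)) (hnu : ∀ v a, P a → P (nu v * a))
    (hee : ∀ u a, P a → P (ee u * a)) : P x := by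
  induction x using TensorProduct.induction_on with
  | zero => simpa using one 0
  | add a b ha hb => exact add a b ha hb
  | tmul f w =>
    induction w using CliffordAlgebra.left_induction generalizing f with
    | add a b ha hb => rw [tmul_add]; exact add _ _ (ha f) (hb f)
    | ι_mul a v ha => exact ee_mul_tmul v f a ▸ hee v _ (ha f)
    | algebraMap r =>
      induction f using MvPolynomial.induction_on with
      | C c =>
        convert one (c * r) using 1
        rw [Algebra.TensorProduct.one_def, mul_smul, Algebra.algebraMap_eq_smul_one, tmul_smul,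
          smul_comm, smul_tmul', smul_tmul', ← MvPolynomial.algebraMap_eq,
          Algebra.algebraMap_eq_smul_one, smul_tmul']
      | add a b ha hb => rw [add_tmul]; exact add _ _ ha hb
      | mul_X a j ha =>
        have := hnu (Pi.single j 1) _ ha
        rwa [nu_mul_tmul, Fintype.linearCombination_apply_single, one_smul, mul_comm] at this

/-- The differential. -/
def pp (κ : (J → K) →ₗ[K] E → K) : Kos K J E →ₗ[K] Kos K J E :=
  ∑ j, TensorProduct.map (pderiv j).toLinearMap
    (LinearMap.mulLeft K (ExteriorAlgebra.ι K (κ (Pi.single j 1))))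

/-- The homotopy. -/
def ss (φ : (E → K) →ₗ[K] J → K) : Kos K J E →ₗ[K] Kos K J E :=
  ∑ e, TensorProduct.map (LinearMap.mulLeft K (Fintype.linearCombination K X (φ (Pi.single e 1))))
    (CliffordAlgebra.contractLeft (Q := 0) (LinearMap.proj e : (E → K) →ₗ[K] K))

section rules

variable (κ : (J → K) →ₗ[K] E → K) (φ : (E → K) →ₗ[K] J → K)

omit [Fintype E] [DecidableEq E] in
lemma pp_one : pp κ 1 = 0 := by
  simp [pp, Algebra.TensorProduct.one_def]

omit [Fintype E] [DecidableEq E] in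
lemma pp_nu (v : J → K) (x : Kos K J E) : pp κ (nu v * x) = ee (κ v) * x + nu v * pp κ x := by
  induction x using TensorProduct.induction_on with
  | zero => simp
  | add a b ha hb => rw [mul_add, map_add, ha, hb, map_add, mul_add, mul_add]; abel
  | tmul f w =>
    have h1 : ∀ j, pderiv j (Fintype.linearCombination K X v : MvPolynomial J K) = C (v j) :=
      fun j => by simp [Fintype.linearCombination_apply, Pi.single_apply, C_eq_smul_one]
    have hκ : κ v = ∑ i, v i • κ (Pi.single i 1) := by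
      conv_lhs => rw [pi_eq_sum_univ' v]
      simp [map_sum]
    rw [hκ]
    simp only [nu_mul_tmul, pp, LinearMap.sum_apply, map_tmul, map_sum, Finset.sum_mul,
      Finset.mul_sum, ← Finset.sum_add_distrib, map_smul, smul_mul_assoc, ee_mul_tmul,
      LinearMap.mulLeft_apply, Derivation.coeFn_coe, Derivation.leibniz, h1]
    refine Finset.sum_congr rfl fun i _ => ?_
    rw [add_tmul, add_comm, smul_eq_mul, smul_eq_mul, mul_comm f, ← smul_eq_C_mul, smul_tmul']

omit [Fintype E] [DecidableEq E] in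
lemma pp_ee (u : E → K) (x : Kos K J E) : pp κ (ee u * x) = -(ee u * pp κ x) := by
  induction x using TensorProduct.induction_on with
  | zero => simp
  | add a b ha hb => rw [mul_add, map_add, ha, hb, map_add, mul_add]; abel
  | tmul f w =>
    simp only [ee_mul_tmul, pp, LinearMap.sum_apply, map_tmul, Finset.mul_sum,
      ← Finset.sum_neg_distrib, LinearMap.mulLeft_apply]
    refine Finset.sum_congr rfl fun j _ => ?_
    rw [← ee_mul_tmul, ← ee_mul_tmul, ee_anticomm, ee_mul_tmul, ee_mul_tmul]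

omit [DecidableEq J] in
lemma ss_one : ss φ 1 = 0 := by
  simp [ss, Algebra.TensorProduct.one_def]

omit [DecidableEq J] in
lemma ss_nu (v : J → K) (x : Kos K J E) : ss φ (nu v * x) = nu v * ss φ x := by
  induction x using TensorProduct.induction_on with
  | zero => simp
  | add a b ha hb => rw [mul_add, map_add, ha, hb, map_add, mul_add]
  | tmul f w =>
    simp only [nu_mul_tmul, ss, LinearMap.sum_apply, map_tmul, Finset.mul_sum,
      LinearMap.mulLeft_apply, mul_left_comm]

omit [DecidableEq J] in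
lemma ss_ee (u : E → K) (x : Kos K J E) : ss φ (ee u * x) = nu (φ u) * x - ee u * ss φ x := by
  induction x using TensorProduct.induction_on with
  | zero => simp
  | add a b ha hb => rw [mul_add, map_add, ha, hb, map_add, mul_add, mul_add]; abel
  | tmul f w =>
    have hφ : φ u = ∑ i, u i • φ (Pi.single i 1) := by
      conv_lhs => rw [pi_eq_sum_univ' u]
      simp [map_sum]
    rw [hφ]
    simp only [ee_mul_tmul, ss, LinearMap.sum_apply, map_tmul, Finset.mul_sum, map_sum,
      Finset.sum_mul, LinearMap.mulLeft_apply, ← Finset.sum_sub_distrib, map_smul, smul_mul_assoc,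
      nu_mul_tmul]
    refine Finset.sum_congr rfl fun i _ => ?_
    rw [ExteriorAlgebra.ι, CliffordAlgebra.contractLeft_ι_mul, tmul_sub, tmul_smul]
    rfl

omit [Fintype E] [DecidableEq E] in
lemma pp_pp (x : Kos K J E) : pp κ (pp κ x) = 0 := by
  induction x using kos_induction with
  | one r => simp [pp_one]
  | add a b ha hb => simp [ha, hb]
  | hnu v a ha => simp [pp_nu, pp_ee, ha]
  | hee u a ha => simp [pp_ee, ha]

end rules

/-- The indicator of `T ⊆ S`. -/
def ind (T S : Finset E) : ℤ := if T ⊆ S then 1 else 0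

/-- Combinations of words of length `q` with at least `μ S` letters labelled inside `S`, for all
`S` in `c`. -/
inductive Wd (ok : (J → K) → Finset E → Prop) (c : Finset (Finset E)) :
    ℕ → (Finset E → ℤ) → Kos K J E → Prop
  | one (μ : Finset E → ℤ) (h : ∀ S ∈ c, μ S ≤ 0) : Wd ok c 0 μ 1
  | zero (q : ℕ) (μ : Finset E → ℤ) : Wd ok c q μ 0
  | add {q : ℕ} {μ : Finset E → ℤ} {x y : Kos K J E} : Wd ok c q μ x → Wd ok c q μ y →
      Wd ok c q μ (x + y)
  | smul {q : ℕ} {μ : Finset E → ℤ} (r : K) {x : Kos K J E} : Wd ok c q μ x → Wd ok c q μ (r • x)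
  | nu {q : ℕ} {μ μ' : Finset E → ℤ} {v : J → K} {T : Finset E} {x : Kos K J E} : ok v T →
      (∀ S ∈ c, μ S ≤ μ' S + ind T S) → Wd ok c q μ' x → Wd ok c (q + 1) μ (nu v * x)
  | ee {q : ℕ} {μ μ' : Finset E → ℤ} (e : E) {x : Kos K J E} :
      (∀ S ∈ c, μ S ≤ μ' S + ind {e} S) → Wd ok c q μ' x →
      Wd ok c (q + 1) μ (ee (Pi.single e 1) * x)

variable {ok : (J → K) → Finset E → Prop} {c : Finset (Finset E)}

/-- The span of such words. -/
def W (ok : (J → K) → Finset E → Prop) (c : Finset (Finset E)) (q : ℕ) (μ : Finset E → ℤ) :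
    Submodule K (Kos K J E) where
  carrier := {x | Wd ok c q μ x}
  add_mem' := Wd.add
  zero_mem' := Wd.zero q μ
  smul_mem' := fun r _ => Wd.smul r

omit [Fintype E] [DecidableEq J] in
lemma Wd.mono {c' : Finset (Finset E)} (hc : c' ⊆ c) {q : ℕ} {μ μ' : Finset E → ℤ} {x : Kos K J E}
    (hx : Wd ok c q μ x) (h : ∀ S ∈ c', μ' S ≤ μ S) : Wd ok c' q μ' x := by
  induction hx generalizing μ' with
  | one μ h0 => exact .one _ fun S hS => (h S hS).trans (h0 S (hc hS))
  | zero => exact .zero _ _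
  | add _ _ h1 h2 => exact .add (h1 h) (h2 h)
  | smul r _ h1 => exact .smul r (h1 h)
  | nu h0 h1 _ h2 => exact .nu h0 (fun S hS => (h S hS).trans (h1 S (hc hS))) (h2 fun _ _ => le_rfl)
  | ee e h1 _ h2 => exact .ee e (fun S hS => (h S hS).trans (h1 S (hc hS))) (h2 fun _ _ => le_rfl)

omit [DecidableEq J] in
lemma Wd.ee' {q : ℕ} {μ μ' : Finset E → ℤ} {u : E → K} {T : Finset E} {x : Kos K J E}
    (hu : ∀ e, u e ≠ 0 → e ∈ T) (h : ∀ S ∈ c, μ S ≤ μ' S + ind T S) (hx : Wd ok c q μ' x) :
    Wd ok c (q + 1) μ (H89.ee u * x) := by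
  rw [pi_eq_sum_univ' u, map_sum, Finset.sum_mul]
  refine (W ok c (q + 1) μ).sum_mem fun e _ => ?_
  by_cases he : u e = 0
  · simp [he]
  rw [map_smul, smul_mul_assoc]
  refine .smul _ (.ee e (fun S hS => (h S hS).trans ?_) hx)
  simp only [ind, Finset.singleton_subset_iff]
  split_ifs with h1 h2
  exacts [le_rfl, absurd (h1 (hu e he)) h2, by omega, le_rfl]

lemma Wd.pp {κ : (J → K) →ₗ[K] E → K} (hok : ∀ v T, ok v T → ∀ e, κ v e ≠ 0 → e ∈ T)
    {q : ℕ} {μ : Finset E → ℤ} {x : Kos K J E} (hx : Wd ok c q μ x) : Wd ok c q μ (pp κ x) := by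
  induction hx with
  | one μ h0 => rw [pp_one]; exact .zero _ _
  | zero => rw [map_zero]; exact .zero _ _
  | add _ _ h1 h2 => rw [map_add]; exact .add h1 h2
  | smul r _ h1 => rw [map_smul]; exact .smul r h1
  | nu h0 h1 hx h2 => rw [pp_nu]; exact .add (.ee' (hok _ _ h0) h1 hx) (.nu h0 h1 h2)
  | ee e h1 _ h2 => rw [pp_ee]; exact (W ok c _ _).neg_mem (.ee e h1 h2)

omit [DecidableEq J] in
lemma Wd.ss {φ : (E → K) →ₗ[K] J → K}
    (hφ : ∀ e, ∃ T, ok (φ (Pi.single e 1)) T ∧ ∀ S ∈ c, e ∈ S → T ⊆ S)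
    {q : ℕ} {μ : Finset E → ℤ} {x : Kos K J E} (hx : Wd ok c q μ x) : Wd ok c q μ (ss φ x) := by
  induction hx with
  | one μ h0 => rw [ss_one]; exact .zero _ _
  | zero => rw [map_zero]; exact .zero _ _
  | add _ _ h1 h2 => rw [map_add]; exact .add h1 h2
  | smul r _ h1 => rw [map_smul]; exact .smul r h1
  | nu h0 h1 _ h2 => rw [ss_nu]; exact .nu h0 h1 h2
  | ee e h1 hx h2 =>
    obtain ⟨T, a1, a2⟩ := hφ e
    rw [ss_ee]
    refine (W ok c _ _).sub_mem (.nu a1 (fun S hS => (h1 S hS).trans ?_) hx) (.ee e h1 h2)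
    simp only [ind, Finset.singleton_subset_iff]
    split_ifs with h3 h4
    exacts [le_rfl, absurd (a2 S hS h3) h4, by omega, le_rfl]

theorem hloc {κ : (J → K) →ₗ[K] E → K} (hok : ∀ v T, ok v T → ∀ e, κ v e ≠ 0 → e ∈ T)
    {φ : (E → K) →ₗ[K] J → K} (hφ : ∀ e, ∃ T, ok (φ (Pi.single e 1)) T ∧ ∀ S ∈ c, e ∈ S → T ⊆ S)
    (hφκ : ∀ v, φ (κ v) = v) (B : Finset E) (hB0 : ∀ b ∈ B, φ (Pi.single b 1) = 0)
    (hB1 : ∀ e, ∃ l : E → K, Pi.single e 1 = κ (φ (Pi.single e 1)) + ∑ b ∈ B, l b • Pi.single b 1)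
    {q : ℕ} (hq : ∀ i : ℕ, 1 ≤ i → i ≤ q → (i : K) ≠ 0) (hBq : B.card ≤ q) {m : Finset E → ℤ}
    (hm : ∀ S ∈ c, m S ≤ (B ∩ S).card) (x : Kos K J E) (hx : x ∈ W ok ∅ q m)
    (hpx : pp κ x ∈ W ok c q m) : ∃ y ∈ W ok ∅ q m, x - pp κ y ∈ W ok c q m := by
  let N : Kos K J E →ₗ[K] Kos K J E := pp κ ∘ₗ ss φ + ss φ ∘ₗ pp κ
  have Nnu : ∀ v x, N (nu v * x) = nu v * x + nu v * N x := fun v x => by
    simp only [N, LinearMap.add_apply, LinearMap.comp_apply, pp_nu, ss_nu, map_add, ss_ee, hφκ,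
      mul_add]
    abel
  have Nee : ∀ u x, N (ee u * x) = ee (κ (φ u)) * x + ee u * N x := fun u x => by
    simp only [N, LinearMap.add_apply, LinearMap.comp_apply, pp_nu, pp_ee, map_sub, map_neg, ss_ee,
      mul_add]
    abel
  let U : ℕ → Submodule K (Kos K J E) := fun q => Submodule.span K {x | ∃ T ⊆ B, T.card = q ∧
    Wd ok c q (fun S => (T ∩ S).card) x ∧ ∀ t ∈ T, ee (Pi.single t 1) * x = 0}
  let V : ℕ → ℕ → Submodule K (Kos K J E) := fun q j => Submodule.span K
    {x | ∃ i ≤ j, N x = (i : K) • x ∧ (i = 0 → x ∈ U q)}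
  have hU : ∀ q, ∀ b ∈ B, ∀ x ∈ U q, ee (Pi.single b 1) * x ∈ U (q + 1) := fun q b hb x hx => by
    refine (Submodule.span_le (p := (U (q + 1)).comap (LinearMap.mulLeft K _))).2 ?_ hx
    rintro x ⟨T, h1, h2, h3, h4⟩
    change ee _ * x ∈ U (q + 1)
    by_cases hbT : b ∈ T
    · rw [h4 b hbT]; exact zero_mem _
    refine Submodule.subset_span ⟨insert b T, Finset.insert_subset hb h1, by
      rw [Finset.card_insert_of_notMem hbT, h2], .ee b (fun S _ => ?_) h3, fun t ht => ?_⟩
    · simp only [ind, Finset.singleton_subset_iff]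
      split_ifs with h5
      · rw [Finset.insert_inter_of_mem h5]
        exact_mod_cast Finset.card_insert_le _ _
      · rw [Finset.insert_inter_of_notMem h5, add_zero]
    · rcases Finset.mem_insert.1 ht with rfl | ht
      · exact ee_mul_self _ _
      · rw [ee_anticomm, h4 t ht, mul_zero, neg_zero]
  have hV1 : ∀ q (a : Kos K J E), (∀ x, N (a * x) = a * x + a * N x) → ∀ x ∈ V q q,
      a * x ∈ V (q + 1) (q + 1) := fun q a ha x hx => by
    refine (Submodule.span_le (p := (V (q + 1) (q + 1)).comap (LinearMap.mulLeft K _))).2 ?_ hx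
    rintro x ⟨i, h1, h2, -⟩
    exact Submodule.subset_span ⟨i + 1, by omega, by
      rw [LinearMap.mulLeft_apply, ha, h2, mul_smul_comm (i : K) a x]
      simp [add_smul, add_comm], by omega⟩
  have hV0 : ∀ q, ∀ b ∈ B, ∀ x ∈ V q q,
      ee (Pi.single b 1) * x ∈ V (q + 1) (q + 1) := fun q b hb x hx => by
    refine (Submodule.span_le (p := (V (q + 1) (q + 1)).comap (LinearMap.mulLeft K _))).2 ?_ hx
    rintro x ⟨i, h1, h2, h3⟩
    exact Submodule.subset_span ⟨i, by omega, by
      rw [LinearMap.mulLeft_apply, Nee, h2, hB0 b hb, mul_smul_comm (i : K) _ x]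
      simp, fun h => hU q b hb x (h3 h)⟩
  have hL : ∀ q μ x, Wd ok ∅ q μ x → x ∈ V q q := fun q μ x hx => by
    induction hx with
    | one μ h0 =>
      exact Submodule.subset_span ⟨0, le_rfl, by simp [N, pp_one, ss_one], fun _ =>
        Submodule.subset_span ⟨∅, by simp, rfl, .one _ (by simp), by simp⟩⟩
    | zero => exact zero_mem _
    | add _ _ h1 h2 => exact add_mem h1 h2
    | smul r _ h1 => exact Submodule.smul_mem _ r h1
    | nu _ _ _ h2 => exact hV1 _ _ (Nnu _) _ h2
    | ee e _ _ h2 =>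
      obtain ⟨l, hl⟩ := hB1 e
      rw [hl, map_add, add_mul, map_sum, Finset.sum_mul]
      refine add_mem (hV1 _ _ (fun x => by rw [Nee, hφκ]) _ h2) (sum_mem fun b hb => ?_)
      rw [map_smul, smul_mul_assoc]
      exact Submodule.smul_mem _ _ (hV0 _ b hb _ h2)
  have hUK : U q ≤ W ok c q m := Submodule.span_le.2 (by
    rintro x ⟨T, h1, h2, h3, -⟩
    obtain rfl := Finset.eq_of_subset_of_card_le h1 (h2 ▸ hBq)
    exact h3.mono subset_rfl hm)
  have hφ' : ∀ e, ∃ T, ok (φ (Pi.single e 1)) T ∧ ∀ S ∈ (∅ : Finset (Finset E)), e ∈ S → T ⊆ S :=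
    fun e => (hφ e).imp fun T h => ⟨h.1, by simp⟩
  have main : ∀ j ≤ q, ∀ x ∈ V q j, x ∈ W ok ∅ q m → pp κ x ∈ W ok c q m →
      ∃ y ∈ W ok ∅ q m, x - pp κ y ∈ W ok c q m := fun j hj => by
    induction j with
    | zero =>
      refine fun x hx _ _ => ⟨0, zero_mem _, ?_⟩
      rw [map_zero, sub_zero]
      refine hUK (Submodule.span_le.2 ?_ hx)
      rintro x ⟨i, h1, -, h3⟩
      exact h3 (by omega)
    | succ j ih =>
      intro x h1 h2 h3
      have hj0 := hq (j + 1) (by omega) hj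
      have a1 : x - ((j + 1 : ℕ) : K)⁻¹ • N x ∈ V q j := by
        refine (Submodule.span_le
          (p := (V q j).comap (LinearMap.id - ((j + 1 : ℕ) : K)⁻¹ • N))).2 ?_ h1
        rintro x ⟨i, b1, b2, b3⟩
        change x - ((j + 1 : ℕ) : K)⁻¹ • N x ∈ V q j
        rcases b1.eq_or_lt with rfl | b1
        · rw [b2, smul_smul, inv_mul_cancel₀ hj0, one_smul, sub_self]; exact zero_mem _
        · have : x ∈ V q j := Submodule.subset_span ⟨i, by omega, b2, b3⟩
          rw [b2]
          exact sub_mem this (Submodule.smul_mem _ _ (Submodule.smul_mem _ _ this))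
      obtain ⟨y, a2, a3⟩ := ih (by omega) _ a1
        (sub_mem h2 (Submodule.smul_mem _ _
          (add_mem (Wd.pp hok (Wd.ss hφ' h2)) (Wd.ss hφ' (Wd.pp hok h2))))) (by
          simp only [N, map_sub, map_smul, LinearMap.add_apply, LinearMap.comp_apply, map_add,
            pp_pp, zero_add]
          exact sub_mem h3 (Submodule.smul_mem _ _ (Wd.pp hok (Wd.ss hφ h3))))
      refine ⟨y + ((j + 1 : ℕ) : K)⁻¹ • ss φ x, add_mem a2 (Submodule.smul_mem _ _ (Wd.ss hφ' h2)),
        ?_⟩
      convert add_mem a3 (Submodule.smul_mem _ ((j + 1 : ℕ) : K)⁻¹ (Wd.ss hφ h3)) using 1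
      simp only [N, map_add, map_smul, LinearMap.add_apply, LinearMap.comp_apply, smul_add]
      abel
  exact main q le_rfl x (hL q m x hx) hx hpx

end

end Pool.Agent.MP_8e2770_co.H89
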