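import Pool.Agent.MP_8e2770_co.H89.Res

/-!
From the cohomological statement on `dx / x` to choosability, by the combinatorial
Nullstellensatz.
-/

namespace Pool.Agent.MP_8e2770_co.H89

open MvPolynomial H72

noncomputable section

lemma coeff_prod_sub {R σ ι : Type} [CommRing R] (s : Finset ι) (f : ι → MvPolynomial σ R)
    (hf : ∀ i, (f i).totalDegree ≤ 1) (c : ι → R) :
    (∏ i ∈ s, (f i - C (c i))).totalDegree ≤ s.card ∧ ∀ β : σ →₀ ℕ, s.card ≤ β.degree →
      coeff β (∏ i ∈ s, (f i - C (c i)) - ∏ i ∈ s, f i) = 0 := by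
  classical
  induction s using Finset.induction_on with
  | empty => simp
  | insert a s ha ih =>
    rw [Finset.prod_insert ha, Finset.prod_insert ha, Finset.card_insert_of_notMem ha]
    refine ⟨(totalDegree_mul _ _).trans ?_, fun β hβ => ?_⟩
    · have := totalDegree_sub (f a) (C (c a))
      have := hf a
      have := ih.1
      simp only [totalDegree_C] at *
      omega
    · rw [sub_mul, sub_right_comm, ← mul_sub, coeff_sub, coeff_C_mul, coeff_mul,
        coeff_eq_zero_of_totalDegree_lt (ih.1.trans_lt hβ), mul_zero, sub_zero]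
      refine Finset.sum_eq_zero fun x hx => ?_
      by_cases h0 : coeff x.1 (f a) = 0
      · rw [h0, zero_mul]
      · have h1 : x.1.degree ≤ 1 := (le_totalDegree (mem_support_iff.2 h0)).trans (hf a)
        rw [← Finset.HasAntidiagonal.mem_antidiagonal.1 hx, map_add] at hβ
        rw [ih.2 x.2 (by omega), mul_zero]

lemma lin_isHomogeneous {K : Type} [Field K] {n : ℕ} (v : Fin n → K) :
    (lin v).IsHomogeneous 1 := by
  rw [lin_apply]
  exact IsHomogeneous.sum _ _ _ fun i _ => by
    rw [smul_eq_C_mul]; exact (isHomogeneous_X K i).C_mul _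

/-- The matrix is `(k + 2, p - k)`-choosable. -/
def Choosable {p n : ℕ} (A : Matrix (Fin n) (Fin n) (ZMod p)) (k : ℕ) : Prop :=
  ∀ X Y : Fin n → Finset (ZMod p), (∀ i, (X i).card = k + 2) → (∀ j, (Y j).card = p - k) →
    ∃ x : Fin n → ZMod p, (∀ i, x i ∈ X i) ∧ ∀ j, Matrix.mulVec A x j ∈ Y j

variable {p n : ℕ} [Fact p.Prime]

lemma choosable_of_lt (A : Matrix (Fin n) (Fin n) (ZMod p)) {k : ℕ} (hk : p < k + 2) :
    Choosable A k := fun X Y hX _ => by
  have : ∀ i : Fin n, False := fun i => by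
    have := (X i).card_le_univ
    rw [hX, ZMod.card] at this
    omega
  exact ⟨0, fun i => (this i).elim, fun i => (this i).elim⟩

lemma choosable_of_coeff (A : Matrix (Fin n) (Fin n) (ZMod p)) {k : ℕ} (hk : k ≤ p)
    {β : Fin n →₀ ℕ} (h1 : ∀ i, β i ≤ k + 1) (h2 : coeff β (∏ j, lin (A j) ^ k) ≠ 0) :
    Choosable A k := fun X Y hX hY => by
  have hc : ∀ j, (Y j)ᶜ.card = k := fun j => by
    rw [Finset.card_compl, hY, ZMod.card]; omega
  obtain ⟨a1, a2⟩ := coeff_prod_sub (Finset.univ.sigma fun j => (Y j)ᶜ)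
    (fun x => lin (A x.1)) (fun x => (lin_isHomogeneous _).totalDegree_le) fun x => x.2
  have a3 : (Finset.univ.sigma fun j => (Y j)ᶜ).card = β.degree := by
    have := (IsHomogeneous.prod Finset.univ (fun j => lin (A j) ^ k) (fun _ => 1 * k)
      fun j _ => (lin_isHomogeneous (A j)).pow k) h2
    rw [Finsupp.degree_eq_weight_one]
    simp only [Finset.card_sigma, hc]
    exact Eq.trans (by simp) this.symm
  have a4 := a2 β a3.le
  rw [coeff_sub, sub_eq_zero, Finset.prod_sigma _ _ fun x => lin (A x.1)] at a4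
  simp only [Finset.prod_const, hc] at a4
  rw [← a4] at h2
  obtain ⟨x, hx, hx'⟩ := combinatorial_nullstellensatz_exists_eval_nonzero _ β h2
    (le_antisymm (a1.trans a3.le) (le_totalDegree (mem_support_iff.2 h2))) X
    fun i => by have := h1 i; rw [hX]; omega
  refine ⟨x, hx, fun j => by_contra fun hj => hx' ?_⟩
  rw [map_prod]
  refine Finset.prod_eq_zero (i := ⟨j, Matrix.mulVec A x j⟩) (by simpa using hj) ?_
  simp [lin_apply, Matrix.mulVec, dotProduct]

lemma choosable_of_inv (A : Matrix (Fin n) (Fin n) (ZMod p)) (hA : IsUnit A.det) {k : ℕ}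
    (hk : k + 2 ≤ p) (H : Choosable A⁻¹ (p - 2 - k)) : Choosable A k := fun X Y hX hY => by
  obtain ⟨y, h1, h2⟩ := H Y X (fun i => by rw [hY]; omega) fun i => by rw [hX]; omega
  exact ⟨_, h2, by rwa [Matrix.mulVec_mulVec, Matrix.mul_nonsing_inv _ hA, Matrix.one_mulVec]⟩

lemma choosable_of_vol {K : Type} [Field K] [Algebra (ZMod p) K]
    (A : Matrix (Fin n) (Fin n) (ZMod p)) (hA : A.det ≠ 0) {k : ℕ} (hk : k ≤ p)
    (H : ∃ g ∈ Gs (arr (A.map (algebraMap (ZMod p) K))) Finset.univ, ∃ η,
      vol (A.map (algebraMap (ZMod p) K)) =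
        mono (arr (A.map (algebraMap (ZMod p) K))) (wt n (k + 1)) • g + d η) :
    Choosable A k := by
  have : CharP K p := charP_of_injective_algebraMap (algebraMap (ZMod p) K).injective p
  obtain ⟨β, h1, h2⟩ := res_vol p _ (by
    rw [← RingHom.mapMatrix_apply, ← RingHom.map_det]; simpa using hA) k H
  refine choosable_of_coeff A hk h1 fun h0 => h2 ?_
  have : ∏ j, lin (A.map (algebraMap (ZMod p) K) j) ^ k =
      map (algebraMap (ZMod p) K) (∏ j, lin (A j) ^ k) := by
    simp only [lin_apply, smul_eq_C_mul, map_prod, map_pow, map_sum, map_mul, map_C, map_X,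
      Matrix.map_apply]
  rw [this, coeff_map, h0, map_zero]

lemma zpow_X_injective :
    Function.Injective fun m : ℤ => (RatFunc.X : RatFunc (ZMod p)) ^ m := fun a b hab => by
  have h : ∀ m : ℤ, ((RatFunc.X : RatFunc (ZMod p)) ^ m).intDegree = m := fun m => by
    induction m using Int.induction_on with
    | zero => simp
    | succ i ih =>
      rw [zpow_add_one₀ RatFunc.X_ne_zero,
        RatFunc.intDegree_mul (zpow_ne_zero _ RatFunc.X_ne_zero) RatFunc.X_ne_zero, ih,
        RatFunc.intDegree_X]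
    | pred i ih =>
      rw [zpow_sub_one₀ RatFunc.X_ne_zero, RatFunc.intDegree_mul (zpow_ne_zero _ RatFunc.X_ne_zero)
        (inv_ne_zero RatFunc.X_ne_zero), ih, RatFunc.intDegree_inv, RatFunc.intDegree_X,
        sub_eq_add_neg]
  exact (h a).symm.trans ((congrArg RatFunc.intDegree hab).trans (h b))

end

end Pool.Agent.MP_8e2770_co.H89
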