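import Pool.Agent.MP_8e2770_co.H89.DI
import Pool.Agent.MP_8e2770_co.H89.Wrap

/-!
Choosability of invertible matrices for liftable matrices.
-/

namespace Pool.Agent.MP_8e2770_co.H89

open H72

variable {p n : ℕ} [Fact p.Prime] (A : Matrix (Fin n) (Fin n) (ZMod p))

theorem choosable_of_liftable (hA : IsUnit A.det) (hn : n < p) (hl : Liftable p A) (k : ℕ) :
    Choosable A k := by
  rcases lt_or_ge p (k + 2) with hk | hk
  · exact choosable_of_lt A hk
  · exact choosable_of_vol (K := RatFunc (ZMod p)) A hA.ne_zero (by omega)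
      (di_vol A hA.ne_zero hn hl _ zpow_X_injective (k + 1) (by omega))

end Pool.Agent.MP_8e2770_co.H89
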