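import Pool.Agent.MP_8e2770_co.H89.Res
import Pool.Agent.MP_8e2770_co.H89.Kos
import Pool.Agent.MP_8e2770_co.H72.Zigzag

/-!
A chain map from the Koszul complex to rational forms in characteristic `p`, compatible with the
filtrations.
-/

namespace Pool.Agent.MP_8e2770_co.H89

open MvPolynomial TensorProduct H72

noncomputable section

variable {K J E : Type} [Field K] [Fintype J] [Fintype E] [DecidableEq J] [DecidableEq E] {n : ℕ}
variable (h : E → Fin n → K) (p : ℕ)

/-- The map `e ↦ h_e ^ (p - 1) d h_e`. -/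
def th : (E → K) →ₗ[K] Om K n := Fintype.linearCombination K fun e => L (h e) ^ (p - 1) • dv (h e)

omit [DecidableEq E] in
lemma th_apply (u : E → K) : th h p u = ∑ e, u e • L (h e) ^ (p - 1) • dv (h e) :=
  Fintype.linearCombination_apply _ _ _

lemma th_single (e : E) : th h p (Pi.single e 1) = L (h e) ^ (p - 1) • dv (h e) := by
  simp [th]

omit [Fintype E] in
lemma sum_mul_self {R : Type} [Ring R] (a : E → R) (h0 : ∀ e, a e * a e = 0)
    (h1 : ∀ e f, a e * a f = -(a f * a e)) (s : Finset E) : (∑ e ∈ s, a e) * ∑ e ∈ s, a e = 0 := by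
  induction s using Finset.induction_on with
  | empty => simp
  | insert e s he ih =>
    rw [Finset.sum_insert he, add_mul, mul_add, mul_add, h0, ih, zero_add, add_zero,
      Finset.mul_sum, Finset.sum_mul, ← Finset.sum_add_distrib]
    exact Finset.sum_eq_zero fun f _ => by rw [h1 e f, neg_add_cancel]

lemma th_mul_self (u : E → K) : th h p u * th h p u = 0 := by
  rw [th_apply]
  refine sum_mul_self _ (fun e => by simp [dv_mul_self]) (fun e f => ?_) _
  simp only [smul_mul_assoc, mul_smul_comm, dv_anticomm (h e), smul_neg]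
  simp only [← smul_assoc, smul_eq_mul, mul_smul_comm, mul_comm]

lemma df_pow (f : FF K n) (m : ℕ) : df (f ^ m) = (m * f ^ (m - 1)) • df f := by
  simp only [df, Derivation.leibniz_pow, Finset.smul_sum, smul_smul]
  refine Finset.sum_congr rfl fun i _ => ?_
  simp [mul_assoc]

omit [DecidableEq E] in
lemma d_th_mul (u : E → K) (y : Om K n) : d (th h p u * y) = -(th h p u * d y) := by
  simp only [th_apply, Finset.sum_mul, map_sum, smul_mul_assoc, map_smul, d_smul, d_dv_mul, df_pow,
    df_L, ← mul_assoc, dv_mul_self, ← Finset.sum_neg_distrib]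
  simp

variable (G : J → MvPolynomial (Fin n) K)

/-- The linear map sending the basis vectors to the polynomials `G j`. -/
def lam : (J → K) →ₗ[K] FF K n := Fintype.linearCombination K fun j => pol (G j)

/-- The chain map. -/
def psi : Kos K J E →ₐ[K] Om K n :=
  Algebra.TensorProduct.lift
    ((IsScalarTower.toAlgHom K (FF K n) (Om K n)).comp (aeval fun j => pol (G j)))
    (ExteriorAlgebra.lift K ⟨th h p, th_mul_self h p⟩) 
    fun a _ => Algebra.commute_algebraMap_left (aeval (fun j => pol (G j)) a) _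

omit [Fintype J] [DecidableEq J] in
lemma psi_tmul (f : MvPolynomial J K) (w : ExteriorAlgebra K (E → K)) :
    psi h p G (f ⊗ₜ[K] w) = algebraMap (FF K n) (Om K n) (aeval (fun j => pol (G j)) f) *
      ExteriorAlgebra.lift K ⟨th h p, th_mul_self h p⟩ w :=
  Algebra.TensorProduct.lift_tmul _ _ _ _ _

omit [DecidableEq J] in
lemma psi_nu (v : J → K) (x : Kos K J E) : psi h p G (nu v * x) = lam G v • psi h p G x := by
  rw [map_mul, Algebra.smul_def]
  congr 1
  exact (psi_tmul h p G _ _).trans (by simp [lam, Fintype.linearCombination_apply])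

omit [Fintype J] [DecidableEq J] in
lemma psi_ee' (u : E → K) : psi h p G (ee u) = th h p u :=
  (psi_tmul h p G _ _).trans (by simp)

omit [Fintype J] [DecidableEq J] in
lemma psi_ee (u : E → K) (x : Kos K J E) : psi h p G (ee u * x) = th h p u * psi h p G x := by
  rw [map_mul, psi_ee']

lemma psi_pp (κ : (J → K) →ₗ[K] E → K) (hG : ∀ v, df (lam G v) = th h p (κ v)) (x : Kos K J E) :
    psi h p G (pp κ x) = d (psi h p G x) := by
  induction x using kos_induction with
  | one r => simp [pp_one, d_one]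
  | add a b ha hb => simp [ha, hb]
  | hnu v a ha => rw [pp_nu, map_add, psi_nu, psi_nu, psi_ee, d_smul, hG, ha]
  | hee u a ha => rw [pp_ee, map_neg, psi_ee, psi_ee, d_th_mul, ha]

omit [DecidableEq E] in
lemma Fw_map {μ μ' : Finset E → ℤ} {c : Finset (Finset E)} (f : Om K n →ₗ[K] Om K n)
    (hf : ∀ u : E → ℤ, (∀ S ∈ c, μ S ≤ ∑ e ∈ S, u e) → ∀ g ∈ Gs h Finset.univ,
      ∃ u' : E → ℤ, (∀ S ∈ c, μ' S ≤ ∑ e ∈ S, u' e) ∧ ∃ g' ∈ Gs h Finset.univ,
        f (mono h u • g) = mono h u' • g') {y : Om K n} (hy : y ∈ Fw h μ c) : f y ∈ Fw h μ' c := by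
  refine (Submodule.span_le (p := (Fw h μ' c).comap f)).2 ?_ hy
  rintro _ ⟨u, hu, g, hg, rfl⟩
  exact Submodule.subset_span (hf u hu g hg)

variable {h}

omit [DecidableEq E] in
lemma mono_add (hh : ∀ e, h e ≠ 0) (u u' : E → ℤ) : mono h (u + u') = mono h u * mono h u' := by
  simp [mono, zpow_add₀ (L_ne_zero (hh _)), Finset.prod_mul_distrib]

lemma mono_single (e : E) : mono h (Pi.single e 1) = L (h e) := by
  rw [mono, Finset.prod_eq_single e (fun b _ hb => by simp [hb]) (by simp)]
  simp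

omit [DecidableEq E] in
lemma mono_smul_mem (hh : ∀ e, h e ≠ 0) (u : E → ℤ) {μ μ' : Finset E → ℤ} {c : Finset (Finset E)}
    (hμ : ∀ S ∈ c, μ' S ≤ μ S + ∑ e ∈ S, u e) {y : Om K n} (hy : y ∈ Fw h μ c) :
    mono h u • y ∈ Fw h μ' c :=
  Fw_map h ((LinearMap.lsmul (FF K n) (Om K n) (mono h u)).restrictScalars K)
    (fun u' hu' g hg => ⟨u + u', fun S hS => by
      have := hμ S hS
      have := hu' S hS
      simp only [Pi.add_apply, Finset.sum_add_distrib]
      omega, g, hg, by rw [mono_add hh, mul_smul]; rfl⟩) hy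

omit [DecidableEq E] in
lemma mul_mem_Fw {a : Om K n} (ha : a ∈ Gs h Finset.univ) {μ : Finset E → ℤ}
    {c : Finset (Finset E)} {y : Om K n} (hy : y ∈ Fw h μ c) : a * y ∈ Fw h μ c :=
  Fw_map h (LinearMap.mulLeft K a)
    (fun u' hu' g hg => ⟨u', hu', a * g, mul_mem ha hg, by simp⟩) hy

variable (h) in
/-- Multiplication by `f` raises the order by `k` along each set containing `T`. -/
def Raises (k : ℕ) (T : Finset E) (f : FF K n) : Prop :=
  ∀ (c : Finset (Finset E)) (μ μ' : Finset E → ℤ), (∀ S ∈ c, μ' S ≤ μ S + k * ind T S) →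
    ∀ y ∈ Fw h μ c, f • y ∈ Fw h μ' c

lemma raises_of_mem (hh : ∀ e, h e ≠ 0) (T : Finset E) (k : ℕ) (g : MvPolynomial (Fin n) K)
    (hg : g ∈ Ideal.span ((fun e => lin (h e)) '' T) ^ k) : Raises h k T (pol g) := by
  have h0 : ∀ g, Raises h 0 T (pol g) := fun g c μ μ' hμ y hy => by
    have := mono_smul_mem hh 0 (μ' := μ') (by simpa using hμ) (mul_mem_Fw (pol_mem_Gs h _ g) hy)
    simpa [mono] using this
  have hmul : ∀ k l f f', Raises h k T f → Raises h l T f' → Raises h (k + l) T (f * f') :=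
    fun k l f f' h1 h2 c μ μ' hμ y hy => by
      rw [mul_smul]
      exact h1 c _ μ' (fun S hS => (hμ S hS).trans_eq (by push_cast; ring)) _
        (h2 c μ (fun S => μ S + l * ind T S) (fun _ _ => le_rfl) y hy)
  have hadd : ∀ k f f', Raises h k T f → Raises h k T f' → Raises h k T (f + f') :=
    fun k f f' h1 h2 c μ μ' hμ y hy => by
      rw [add_smul]; exact add_mem (h1 c μ μ' hμ y hy) (h2 c μ μ' hμ y hy)
  have h1 : ∀ g ∈ Ideal.span ((fun e => lin (h e)) '' T), Raises h 1 T (pol g) := fun g hg => by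
    induction hg using Submodule.span_induction with
    | mem _ hx =>
      obtain ⟨e, he, rfl⟩ := hx
      intro c μ μ' hμ y hy
      rw [← H72.L_apply, ← mono_single]
      refine mono_smul_mem hh _ (fun S hS => (hμ S hS).trans ?_) hy
      simp only [ind, Finset.sum_pi_single']
      split_ifs with h3 h4
      exacts [by omega, absurd (h3 he) h4, by omega, by omega]
    | zero => intro c μ μ' _ y _; simp
    | add _ _ _ _ a1 a2 => rw [map_add]; exact hadd _ _ _ a1 a2
    | smul a _ _ a1 => rw [smul_eq_mul, map_mul]; exact hmul 0 1 _ _ (h0 a) a1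
  induction k generalizing g with
  | zero => exact h0 g
  | succ k ih =>
    rw [pow_succ] at hg
    exact Submodule.mul_induction_on hg
      (fun a ha b hb => by rw [map_mul]; exact hmul _ _ _ _ (ih a ha) (h1 b hb))
      fun a b a1 a2 => by rw [map_add]; exact hadd _ _ _ a1 a2

omit [DecidableEq J] in
lemma psi_mem (hh : ∀ e, h e ≠ 0) (hp : p ≠ 0) {ok : (J → K) → Finset E → Prop}
    (hok : ∀ v T, ok v T → Raises h p T (lam G v)) {c : Finset (Finset E)} {q : ℕ}
    {μ : Finset E → ℤ} {x : Kos K J E} (hx : Wd ok c q μ x) :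
    psi h p G x ∈ Fw h (fun S => p * μ S) c := by
  have key : ∀ {a b e : ℤ}, a ≤ b + e → p * a ≤ p * b + p * e := fun hab => by
    rw [← mul_add]; exact mul_le_mul_of_nonneg_left hab (by positivity)
  induction hx with
  | one μ h0 =>
    exact Submodule.subset_span ⟨0, fun S hS => by simpa using key (e := 0) (b := 0) (h0 S hS),
      1, one_mem _, by simp [mono]⟩
  | zero => simp
  | add _ _ h1 h2 => rw [map_add]; exact add_mem h1 h2
  | smul r _ h1 => rw [map_smul]; exact Submodule.smul_mem _ r h1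
  | nu h0 h1 _ h2 => rw [psi_nu]; exact hok _ _ h0 c _ _ (fun S hS => key (h1 S hS)) _ h2
  | ee e h1 _ h2 =>
    rw [psi_ee, th_single, ← L_smul_om, smul_smul, pow_sub_one_mul hp, smul_mul_assoc,
      H72.L_apply, ← map_pow]
    exact raises_of_mem hh {e} p _ (Ideal.pow_mem_pow (Ideal.subset_span (Set.mem_image_of_mem _ (by simp))) p) c _ _
      (fun S hS => key (h1 S hS)) _ (mul_mem_Fw (om_mem_Gs h (Finset.mem_univ e)) h2)

omit [Fintype E] [DecidableEq J] in
lemma Wd_prod (ok : (J → K) → Finset E → Prop) (l : List E) (μ : Finset E → ℤ) :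
    Wd ok ∅ l.length μ (l.map fun e => ee (Pi.single e (1 : K))).prod := by
  induction l with
  | nil => exact .one _ (by simp)
  | cons e l ih => exact .ee e (by simp) ih

omit [Fintype E] in
lemma pp_prod (κ : (J → K) →ₗ[K] E → K) (l : List E) :
    pp κ (l.map fun e => ee (Pi.single e (1 : K))).prod = 0 := by
  induction l with
  | nil => exact pp_one κ
  | cons e l ih => simp [pp_ee, ih]

theorem kos_main [Fact p.Prime] [CharP K p] (hh : ∀ e, h e ≠ 0) (t : K)
    (ht : Function.Injective fun m : ℤ => t ^ m) (κ : (J → K) →ₗ[K] E → K)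
    (hG : ∀ v, df (lam G v) = th h p (κ v)) (w u : E → ℤ) (m : Finset E → ℤ)
    (hw : ∀ S, ∑ e ∈ S, w e ≤ p * m S + p * ∑ e ∈ S, u e) (l : List E) (hl : l.length < p)
    (hc : ∀ c : Finset (Finset E), IsChain (· ⊆ ·) (c : Set (Finset E)) →
      ∃ (φ : (E → K) →ₗ[K] J → K) (B : Finset E),
        (∀ e, ∃ T, ((∀ f, κ (φ (Pi.single e 1)) f ≠ 0 → f ∈ T) ∧
          Raises h p T (lam G (φ (Pi.single e 1)))) ∧ ∀ S ∈ c, e ∈ S → T ⊆ S) ∧
        (∀ v, φ (κ v) = v) ∧ (∀ b ∈ B, φ (Pi.single b 1) = 0) ∧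
        (∀ e, ∃ l : E → K,
          Pi.single e 1 = κ (φ (Pi.single e 1)) + ∑ b ∈ B, l b • Pi.single b 1) ∧
        B.card ≤ l.length ∧ ∀ S ∈ c, m S ≤ (B ∩ S).card) :
    ∃ g ∈ Gs h Finset.univ, ∃ η,
      mono h u ^ p • (l.map fun e => th h p (Pi.single e 1)).prod = mono h w • g + d η := by
  have hp : p ≠ 0 := (Fact.out : p.Prime).ne_zero
  have hc' : CharP (FF K n) p := charP_of_injective_algebraMap (algebraMap K _).injective _
  let ok : (J → K) → Finset E → Prop := fun v T =>
    (∀ f, κ v f ≠ 0 → f ∈ T) ∧ Raises h p T (lam G v)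
  have hok : ∀ v T, ok v T → ∀ e, κ v e ≠ 0 → e ∈ T := fun v T h => h.1
  have hu : mono h u ^ p = mono h fun e => p * u e := by
    simp [mono, ← Finset.prod_pow, mul_comm (p : ℤ), zpow_mul]
  have := zigzag h hh t ht w (pp κ) (pp_pp κ)
    ((LinearMap.lsmul (FF K n) (Om K n) (mono h u ^ p)).restrictScalars K ∘ₗ
      (psi h p G).toLinearMap)
    (fun x => by simp [psi_pp h p G κ hG, d_smul, df_pow])
    (fun c => W ok c l.length m) (fun _ => W ok ∅ l.length m)
    (fun c c' hc x hx => Wd.mono hc hx fun _ _ => le_rfl) antitone_const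
    (fun c x hx => Wd.mono (Finset.empty_subset c) hx fun _ _ => le_rfl)
    (fun c x hx => Wd.pp hok hx) (fun c x hx => Wd.pp hok hx)
    (fun c hch x h1 h2 => by
      obtain ⟨φ, B, a1, a2, a3, a4, a5, a6⟩ := hc c hch
      exact hloc hok a1 a2 B a3 a4 (fun i b1 b2 h0 => by
        have := Nat.le_of_dvd b1 ((CharP.cast_eq_zero_iff K p i).1 h0)
        omega) a5 a6 x h1 h2)
    (fun c _ x hx => by
      change mono h u ^ p • psi h p G x ∈ _
      rw [hu]
      exact mono_smul_mem hh _ (fun S _ => by simpa [Finset.mul_sum] using hw S)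
        (psi_mem p G hh hp (fun v T h => h.2) hx))
    (l.map fun e => ee (Pi.single e (1 : K))).prod (fun _ _ => Wd_prod ok l m)
    (pp_prod κ l)
  simpa [map_list_prod, Function.comp_def, psi_ee'] using this

end

end Pool.Agent.MP_8e2770_co.H89
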