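import Pool.Agent.MP_8e2770_co.H72.Arr

/-!
A residue argument in characteristic `p`: the form `dx / x` is not exact, with a consequence for
the coefficients of a product of powers of linear forms.
-/

namespace Pool.Agent.MP_8e2770_co.H89

open MvPolynomial TensorProduct H72

noncomputable section

variable {K : Type} [Field K] {n : ℕ}

theorem exists_top : ∃ φ : Lam K n →ₗ[K] K,
    φ (List.ofFn fun i => ExteriorAlgebra.ι K (Pi.single i (1 : K) : Fin n → K)).prod = 1 := by
  refine ⟨ExteriorAlgebra.liftAlternating (Function.update 0 n Matrix.detRowAlternating), ?_⟩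
  rw [← ExteriorAlgebra.ιMulti_apply, ExteriorAlgebra.liftAlternating_apply_ιMulti,
    Function.update_self]
  refine Eq.trans (congrArg Matrix.det ?_) (Matrix.det_one (n := Fin n))
  ext i j
  simp [Matrix.one_apply, Pi.single_apply, eq_comm]

/-- A functional on constant forms, extended to rational forms. -/
def top (φ : Lam K n →ₗ[K] K) : Om K n →ₗ[FF K n] FF K n :=
  (TensorProduct.AlgebraTensorModule.rid K (FF K n) (FF K n)).toLinearMap ∘ₗ
    φ.baseChange (FF K n) ∘ₗ toOm.symm.toLinearMap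

lemma top_smul_cst (φ : Lam K n →ₗ[K] K) (f : FF K n) (w : Lam K n) :
    top φ (f • cst w) = φ w • f := by
  rw [← toOm_tmul]
  simp [top]

lemma top_dv_mul (φ : Lam K n →ₗ[K] K) (v : Fin n → K) (x : Om K n) :
    top φ (dv v * x) = top (φ ∘ₗ LinearMap.mulLeft K (ExteriorAlgebra.ι K v)) x := by
  induction x using om_induction with
  | add a b ha hb => rw [mul_add, map_add, map_add, ha, hb]
  | smul f w => rw [mul_smul_comm, dv_apply, ← map_mul, top_smul_cst, top_smul_cst]; rfl

lemma top_d (φ : Lam K n →ₗ[K] K) (η : Om K n) :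
    ∃ f : Fin n → FF K n, top φ (d η) = ∑ i, D i (f i) := by
  induction η using om_induction with
  | add a b ha hb =>
    obtain ⟨f, hf⟩ := ha
    obtain ⟨g, hg⟩ := hb
    exact ⟨f + g, by simp [hf, hg, Finset.sum_add_distrib]⟩
  | smul f w =>
    refine ⟨fun i => φ (ExteriorAlgebra.ι K (Pi.single i 1) * w) • f, ?_⟩
    rw [d_smul_cst, df, Finset.sum_mul, map_sum]
    refine Finset.sum_congr rfl fun i _ => ?_
    rw [smul_mul_assoc, dv_apply, ← map_mul, top_smul_cst, Derivation.map_smul]

variable {E : Type} (h : E → Fin n → K)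

lemma pol_mem_Gs (P : Finset E) (g : MvPolynomial (Fin n) K) : pol g • (1 : Om K n) ∈ Gs h P :=
  Algebra.subset_adjoin (Or.inl (Or.inl ⟨g, rfl⟩))

lemma dv_mem_Gs (P : Finset E) (v : Fin n → K) : dv v ∈ Gs h P :=
  Algebra.subset_adjoin (Or.inl (Or.inr ⟨v, rfl⟩))

lemma om_mem_Gs {P : Finset E} {e : E} (he : e ∈ P) : om h e ∈ Gs h P :=
  Algebra.subset_adjoin (Or.inr ⟨e, he, rfl⟩)

lemma pol_smul_mem_Gs {P : Finset E} (g : MvPolynomial (Fin n) K) {x : Om K n}
    (hx : x ∈ Gs h P) : pol g • x ∈ Gs h P := by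
  simpa using mul_mem (pol_mem_Gs h P g) hx

lemma exists_of_mem_Gs_insert [DecidableEq E] {P : Finset E} {e : E} {x : Om K n} (hx : x ∈ Gs h (insert e P)) :
    ∃ a ∈ Gs h P, ∃ b ∈ Gs h P, x = a + om h e * b := by
  have key : ∀ a ∈ Gs h P, ∀ b ∈ Gs h P,
      ∃ a' ∈ Gs h P, ∃ b' ∈ Gs h P, x * (a + om h e * b) = a' + om h e * b' := by
    induction hx using Algebra.adjoin_induction with
    | mem y hy =>
      intro a ha b hb
      have anti : ∀ y ∈ Gs h P, y * om h e = -(om h e * y) →
          ∃ a' ∈ Gs h P, ∃ b' ∈ Gs h P, y * (a + om h e * b) = a' + om h e * b' :=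
        fun y hy h1 => ⟨_, mul_mem hy ha, _, neg_mem (mul_mem hy hb), by
          rw [mul_add, ← mul_assoc, h1, neg_mul, mul_neg, mul_assoc]⟩
      rcases hy with (⟨g, rfl⟩ | ⟨v, rfl⟩) | ⟨e', he', rfl⟩
      · exact ⟨_, pol_smul_mem_Gs h g ha, _, pol_smul_mem_Gs h g hb, by simp⟩
      · exact anti _ (dv_mem_Gs h P v) (by simp [om, dv_anticomm v])
      · rcases Finset.mem_insert.1 he' with rfl | he'
        · exact ⟨0, zero_mem _, a, ha, by
            rw [mul_add, ← mul_assoc]; simp [om, dv_mul_self]⟩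
        · exact anti _ (om_mem_Gs h he') (by
            simp [om, dv_anticomm (h e'), smul_smul, mul_comm])
    | algebraMap r =>
      intro a ha b hb
      exact ⟨_, (Gs h P).smul_mem ha r, _, (Gs h P).smul_mem hb r, by
        simp [Algebra.algebraMap_eq_smul_one]⟩
    | add x y _ _ hx hy =>
      intro a ha b hb
      obtain ⟨a1, h1, b1, h2, e1⟩ := hx a ha b hb
      obtain ⟨a2, h3, b2, h4, e2⟩ := hy a ha b hb
      exact ⟨_, add_mem h1 h3, _, add_mem h2 h4, by rw [add_mul, e1, e2, mul_add]; abel⟩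
    | mul x y _ _ hx hy =>
      intro a ha b hb
      obtain ⟨a1, h1, b1, h2, e1⟩ := hy a ha b hb
      obtain ⟨a2, h3, b2, h4, e2⟩ := hx a1 h1 b1 h2
      exact ⟨_, h3, _, h4, by rw [mul_assoc, e1, e2]⟩
  simpa using key 1 (one_mem _) 0 (zero_mem _)

lemma L_smul_om (e : E) : L (h e) • om h e = dv (h e) := by
  by_cases he : h e = 0
  · simp [he]
  · rw [om, smul_smul, mul_inv_cancel₀ (L_ne_zero he), one_smul]

lemma prod_smul_mem_Gs {P : Finset E} {x : Om K n} (hx : x ∈ Gs h P) :
    (∏ e ∈ P, L (h e)) • x ∈ Gs h ∅ := by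
  classical
  induction P using Finset.induction_on generalizing x with
  | empty => simpa using hx
  | insert e P he ih =>
    obtain ⟨a, ha, b, hb, rfl⟩ := exists_of_mem_Gs_insert h hx
    rw [Finset.prod_insert he, mul_smul, smul_add, smul_add, ← mul_smul_comm, ← smul_mul_assoc,
      L_smul_om]
    exact add_mem (pol_smul_mem_Gs h _ (ih ha)) (mul_mem (dv_mem_Gs h _ _) (ih hb))

lemma top_of_mem_Gs {x : Om K n} (hx : x ∈ Gs h ∅) (φ : Lam K n →ₗ[K] K) :
    ∃ G, top φ x = pol G := by
  have key : ∀ y : Om K n, (∀ φ, ∃ G, top φ y = pol G) → ∀ φ, ∃ G, top φ (x * y) = pol G := by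
    induction hx using Algebra.adjoin_induction with
    | mem z hz =>
      intro y hy φ
      rcases hz with (⟨g, rfl⟩ | ⟨v, rfl⟩) | ⟨e', he', rfl⟩
      · obtain ⟨G, hG⟩ := hy φ
        exact ⟨g * G, by simp [hG]⟩
      · rw [top_dv_mul]; exact hy _
      · simp at he'
    | algebraMap r =>
      intro y hy φ
      obtain ⟨G, hG⟩ := hy φ
      exact ⟨r • G, by
        rw [← Algebra.smul_def, LinearMap.map_smul_of_tower, hG, map_smul]⟩
    | add x z _ _ hx hz =>
      intro y hy φ
      obtain ⟨G, hG⟩ := hx y hy φ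
      obtain ⟨G', hG'⟩ := hz y hy φ
      exact ⟨G + G', by simp [add_mul, hG, hG']⟩
    | mul x z _ _ hx hz =>
      intro y hy
      rw [mul_assoc]
      exact hx _ (hz y hy)
  simpa using key 1 (fun φ => ⟨C (φ 1), by
    rw [← map_one cst, ← one_smul (FF K n) (cst 1), top_smul_cst, ← MvPolynomial.algebraMap_eq,
      AlgHom.commutes, Algebra.algebraMap_eq_smul_one]⟩) φ

lemma prod_ofFn_smul {m : ℕ} (f : Fin m → FF K n) (w : Fin m → Om K n) :
    (List.ofFn fun i => f i • w i).prod = (∏ i, f i) • (List.ofFn w).prod := by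
  induction m with
  | zero => simp
  | succ m ih => simp [List.ofFn_succ, ih, Fin.prod_univ_succ, smul_smul, mul_comm]

lemma cartier (p : ℕ) [Fact p.Prime] [CharP K p] {b R : MvPolynomial (Fin n) K} (hb : b ≠ 0)
    (u : Fin n → MvPolynomial (Fin n) K) (hR : b ^ p * R = ∑ i, pderiv i (u i))
    (m : Fin n →₀ ℕ) (hm : ∀ i, (m i : K) = -1) : coeff m R = 0 := by
  classical
  let w : Fin n → Fin n → K := fun i => Pi.single i 1
  have hw : ∀ (s : Fin n →₀ ℕ) (i : Fin n), Finsupp.weight w s i = s i := fun s i => by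
    rw [Finsupp.weight_apply, Finsupp.sum_fintype _ _ (by simp)]
    simp [w, Pi.single_apply]
  have h1 : IsWeightedHomogeneous w (b ^ p) 0 := by
    clear hR hb
    induction b using MvPolynomial.induction_on' with
    | monomial s a =>
      rw [monomial_pow]
      exact isWeightedHomogeneous_monomial _ _ _ (funext fun i => by simp [hw])
    | add a b ha hb => rw [add_pow_char]; exact ha.add hb
  let π := weightedHomogeneousComponent (R := K) w (fun _ => -1)
  have h2 : π (b ^ p * R) = b ^ p * π R := by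
    ext s
    rw [coeff_weightedHomogeneousComponent, coeff_mul, coeff_mul]
    simp only [π, coeff_weightedHomogeneousComponent]
    have : ∀ x ∈ Finset.HasAntidiagonal.antidiagonal s, coeff x.1 (b ^ p) ≠ 0 →
        Finsupp.weight w x.2 = Finsupp.weight w s := fun x hx h0 => by
      rw [← Finset.HasAntidiagonal.mem_antidiagonal.1 hx, map_add, h1 h0, zero_add]
    split_ifs with hs
    · refine Finset.sum_congr rfl fun x hx => ?_
      by_cases h0 : coeff x.1 (b ^ p) = 0
      · simp [h0]
      · rw [this x hx h0, if_pos hs]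
    · refine (Finset.sum_eq_zero fun x hx => ?_).symm
      by_cases h0 : coeff x.1 (b ^ p) = 0
      · simp [h0]
      · rw [this x hx h0, if_neg hs, mul_zero]
  have h3 : π (∑ i, pderiv i (u i)) = 0 := by
    ext s
    rw [coeff_weightedHomogeneousComponent, coeff_sum, coeff_zero]
    split_ifs with hs
    · refine Finset.sum_eq_zero fun i _ => ?_
      have := congrFun hs i
      rw [hw] at this
      simp [coeff_pderiv, this]
    · rfl
  rw [hR, h3, eq_comm, mul_eq_zero] at h2
  have h4 := congrArg (coeff m) (h2.resolve_left (pow_ne_zero _ hb))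
  rwa [coeff_weightedHomogeneousComponent, if_pos (_root_.funext fun i => by rw [hw, hm])] at h4

theorem res_vol (p : ℕ) [Fact p.Prime] [CharP K p] (A : Matrix (Fin n) (Fin n) K)
    (hA : A.det ≠ 0) (k : ℕ)
    (H : ∃ g ∈ Gs (arr A) Finset.univ, ∃ η, vol A = mono (arr A) (wt n (k + 1)) • g + d η) :
    ∃ β : Fin n →₀ ℕ, (∀ i, β i ≤ k + 1) ∧ coeff β (∏ j, lin (A j) ^ k) ≠ 0 := by
  obtain ⟨g, hg, η, H⟩ := H
  obtain ⟨φ, hφ⟩ := exists_top (K := K) (n := n)
  obtain ⟨G, hG⟩ := top_of_mem_Gs _ (prod_smul_mem_Gs _ hg) φ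
  obtain ⟨f, hf⟩ := top_d φ η
  obtain ⟨⟨b, hb0⟩, hb⟩ := IsLocalization.exist_integer_multiples_of_finite
    (nonZeroDivisors (MvPolynomial (Fin n) K)) f
  choose u hu using hb
  set P : MvPolynomial (Fin n) K := ∏ i, X i with hP
  set Q : MvPolynomial (Fin n) K := ∏ j, lin (A j) with hQ
  have hP0 : pol P ≠ 0 := by
    rw [hP, map_prod, Finset.prod_ne_zero_iff]
    exact fun i _ h0 => X_ne_zero i (pol_injective (h0.trans (map_zero _).symm))
  have hQ0 : pol Q ≠ 0 := by
    rw [hQ, map_prod, Finset.prod_ne_zero_iff]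
    exact fun j _ => L_ne_zero fun h0 => hA (Matrix.det_eq_zero_of_row_eq_zero j (congrFun h0))
  have h1 : top φ (vol A) = (pol P)⁻¹ := by
    have : vol A = (pol P)⁻¹ • cst (List.ofFn fun i =>
        ExteriorAlgebra.ι K (Pi.single i (1 : K) : Fin n → K)).prod := by
      rw [vol, map_list_prod, List.map_ofFn, hP, map_prod, ← Finset.prod_inv_distrib,
        ← prod_ofFn_smul]
      simp only [om, arr, Sum.elim_inl, H72.L_apply, lin_single]
      rfl
    rw [this, top_smul_cst, hφ, one_smul]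
  have h2 : mono (arr A) (wt n (k + 1)) = (pol P ^ (k + 1))⁻¹ * pol Q ^ (k + 1) := by
    simp only [mono, Fintype.prod_sum_type, arr, wt, Sum.elim_inl, Sum.elim_inr, H72.L_apply,
      lin_single, zpow_neg, zpow_natCast, hP, hQ, map_prod, Finset.prod_pow,
      Finset.prod_inv_distrib]
  have h3 : top φ g = (pol P * pol Q)⁻¹ * pol G := by
    rw [← hG, map_smul, smul_eq_mul, eq_inv_mul_iff_mul_eq₀ (mul_ne_zero hP0 hQ0)]
    simp only [Fintype.prod_sum_type, arr, Sum.elim_inl, Sum.elim_inr, H72.L_apply,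
      lin_single, hP, hQ, map_prod]
  have h4 := congrArg (top φ) H
  rw [h1, map_add, map_smul, h2, h3, hf, smul_eq_mul] at h4
  obtain ⟨q, rfl⟩ : ∃ q, p = q + 1 := ⟨p - 1, by have := (Fact.out : p.Prime).pos; omega⟩
  have hc : CharP (FF K n) (q + 1) := charP_of_injective_algebraMap (algebraMap K _).injective _
  have h5 : b ^ (q + 1) * (P ^ ((k + 2) * q) * (P ^ (k + 1) - Q ^ k * G)) =
      ∑ i, pderiv i ((b * P ^ (k + 2)) ^ q * P ^ (k + 2) * u i) := by
    apply pol_injective
    have : ∀ i, pol (pderiv i ((b * P ^ (k + 2)) ^ q * P ^ (k + 2) * u i)) =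
        pol (b * P ^ (k + 2)) ^ (q + 1) * D i (f i) := fun i => by
      have e1 : pol (u i) = pol b * f i := by
        exact (hu i).trans (Algebra.smul_def _ _)
      have e2 : pol ((b * P ^ (k + 2)) ^ q * P ^ (k + 2) * u i) =
          pol (b * P ^ (k + 2)) ^ (q + 1) * f i := by
        simp only [map_mul, map_pow, e1]; ring
      rw [← D_pol, e2, Derivation.leibniz, Derivation.leibniz_pow, ← Nat.cast_smul_eq_nsmul (FF K n),
        CharP.cast_eq_zero]
      simp
    rw [map_sum]
    simp only [this]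
    rw [← Finset.mul_sum, ← sub_eq_iff_eq_add'.2 h4]
    simp only [map_mul, map_pow, map_sub]
    field_simp
    ring
  have hPm : ∀ j : ℕ, P ^ j = monomial (Finsupp.equivFunOnFinite.symm fun _ => j) 1 := fun j => by
    rw [monomial_eq, Finsupp.prod_fintype _ _ (by simp), hP, ← Finset.prod_pow]
    simp
  have h6 := cartier (q + 1) (nonZeroDivisors.ne_zero hb0) _ h5
    (Finsupp.equivFunOnFinite.symm (fun _ => (k + 2) * q) +
      Finsupp.equivFunOnFinite.symm fun _ => k + 1) (fun i => by
        have := CharP.cast_eq_zero K (q + 1)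
        simp only [Finsupp.coe_add, Pi.add_apply, Finsupp.equivFunOnFinite_symm_apply_apply]
        push_cast at this ⊢
        linear_combination (k + 2 : K) * this)
  rw [hPm, coeff_monomial_mul, hPm, one_mul, coeff_sub, coeff_monomial, if_pos rfl, sub_eq_zero,
    coeff_mul] at h6
  obtain ⟨⟨β, γ⟩, h7, h8⟩ := Finset.exists_ne_zero_of_sum_ne_zero (h6 ▸ one_ne_zero)
  refine ⟨β, fun i => ?_, ?_⟩
  · have := congrArg (fun s => s i) (Finset.HasAntidiagonal.mem_antidiagonal.1 h7)
    simp only [Finsupp.coe_add, Pi.add_apply, Finsupp.equivFunOnFinite_symm_apply_apply] at this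
    omega
  · rw [Finset.prod_pow]
    exact left_ne_zero_of_mul h8

end

end Pool.Agent.MP_8e2770_co.H89
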