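import Pool.Agent.MP_8e2770_co.H72.Euler
import Pool.Agent.MP_8e2770_co.H89.Wrap

/-!
Choosability of invertible matrices for small or large list parameter.
-/

namespace Pool.Agent.MP_8e2770_co.H89

open H72

variable {p n : ℕ} [Fact p.Prime] (A : Matrix (Fin n) (Fin n) (ZMod p))

theorem choosable_of_small (hA : IsUnit A.det) {k : ℕ} (h : (k + 1) * (n - 1) ≤ p) :
    Choosable A k := by
  rcases lt_or_ge p (k + 2) with hk | hk
  · exact choosable_of_lt A hk
  · have : CharP (RatFunc (ZMod p)) p :=
      charP_of_injective_algebraMap (algebraMap (ZMod p) _).injective p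
    refine choosable_of_vol (K := RatFunc (ZMod p)) A hA.ne_zero (by omega)
      (euler_vol' _ (by rw [← RingHom.mapMatrix_apply, ← RingHom.map_det]; simpa using hA.ne_zero)
        _ zpow_X_injective (k + 1) (by omega) fun s h1 h2 h0 => ?_)
    have := Nat.le_of_dvd h1 ((CharP.cast_eq_zero_iff _ p s).1 h0)
    omega

theorem choosable_of_min (hA : IsUnit A.det) {k : ℕ}
    (h : min (k + 1) (p - 1 - k) * (n - 1) ≤ p) : Choosable A k := by
  rcases lt_or_ge p (k + 2) with hk | hk
  · exact choosable_of_lt A hk
  rcases le_total (k + 1) (p - 1 - k) with h1 | h1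
  · exact choosable_of_small A hA (by rwa [min_eq_left h1] at h)
  · refine choosable_of_inv A hA hk (choosable_of_small _ (A.isUnit_nonsing_inv_det hA) ?_)
    rwa [min_eq_right h1, show p - 1 - k = p - 2 - k + 1 by omega] at h

end Pool.Agent.MP_8e2770_co.H89
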